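import Mathlib

/-!
# Locally nilpotent operators and inverse square roots of locally unipotent operators
-/

set_option autoImplicit false

open Polynomial

namespace Pool.Agent.H89R3.Gr

variable {F V : Type*} [Field F] [AddCommGroup V] [Module F V]

/-- locally nilpotent operators -/
def LN (D : Module.End F V) : Prop := ∀ a, ∃ k : ℕ, (D ^ k) a = 0

lemma pow_zero_of_le {D : Module.End F V} {a : V} {k l : ℕ} (h : (D ^ k) a = 0) (hkl : k ≤ l) :
    (D ^ l) a = 0 := by
  obtain ⟨m, rfl⟩ := Nat.exists_eq_add_of_le' hkl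
  rw [pow_add, Module.End.mul_apply, h, map_zero]

lemma exists_poly (h2 : (2:F) ≠ 0) : ∃ p : ℕ → F[X], (∀ k, X ^ k ∣ p (k+1) - p k) ∧
    (∀ k, X ^ k ∣ (p k)^2 * (1 + X) - 1) ∧ ∀ k, (p k).coeff 0 = 1 := by
  let P : ℕ → F[X] → Prop := fun k q => X ^ k ∣ q^2 * (1 + X) - 1 ∧ q.coeff 0 = 1
  have step : ∀ (k : ℕ) (q : {q : F[X] // P k q}), ∃ q' : {q : F[X] // P (k+1) q},
      X ^ k ∣ q'.1 - q.1 := by
    rintro k ⟨q, ⟨g, hg⟩, hq0⟩
    set c := g.coeff 0 with hc
    have hc0 : k = 0 → c = 0 := by
      rintro rfl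
      have := congrArg (fun r => coeff r 0) hg
      simp only [pow_zero, one_mul, coeff_sub, mul_coeff_zero, coeff_add, coeff_one_zero, coeff_X_zero,
        add_zero, mul_one] at this
      rw [sq, mul_coeff_zero, hq0] at this
      rw [hc, ← this]; simp
    refine ⟨⟨q - C (c/2) * X ^ k, ?_, ?_⟩, ?_⟩
    · have e1 : (q - C (c/2) * X ^ k)^2 * (1 + X) - 1 =
          X ^ k * (g - C c * q * (1 + X) + C (c/2)^2 * X ^ k * (1 + X)) := by
        have e2 : (C c : F[X]) = 2 * C (c/2) := by
          have : c = 2 * (c/2) := by field_simp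
          conv_lhs => rw [this]
          rw [C_mul]
          congr 1
        have e3 : q^2 * (1 + X) = 1 + X ^ k * g := by rw [← hg]; ring
        calc (q - C (c/2) * X ^ k)^2 * (1 + X) - 1 
            = (q^2 * (1 + X)) - 1 - X ^ k * (2 * C (c/2)) * q * (1 + X)
              + C (c/2)^2 * X ^ k * X ^ k * (1 + X) := by ring
          _ = _ := by rw [e3, ← e2]; ring
      rw [e1, pow_succ]
      apply mul_dvd_mul_left
      rw [X_dvd_iff]
      simp only [coeff_add, coeff_sub, mul_coeff_zero, coeff_C_zero, coeff_one_zero, coeff_X_zero,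
        add_zero, mul_one, hq0, ← hc, sub_self, zero_add]
      rcases Nat.eq_zero_or_pos k with hk | hk
      · rw [hc0 hk]; simp
      · have : (X ^ k : F[X]).coeff 0 = 0 := by
          rw [coeff_X_pow, if_neg (by omega)]
        rw [this, mul_zero]
    · simp only [coeff_sub, mul_coeff_zero, coeff_C_zero, hq0]
      rcases Nat.eq_zero_or_pos k with hk | hk
      · rw [hc0 hk]; simp
      · have : (X ^ k : F[X]).coeff 0 = 0 := by
          rw [coeff_X_pow, if_neg (by omega)]
        rw [this, mul_zero, sub_zero]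
    · simp only
      refine ⟨- C (c/2), by ring⟩
  choose st hst using step
  have h0 : P 0 1 := ⟨by simp, by simp⟩
  let s : (k : ℕ) → {q : F[X] // P k q} := fun k => Nat.rec ⟨1, h0⟩ (fun k q => st k q) k
  exact ⟨fun k => (s k).1, fun k => hst k (s k), fun k => (s k).2.1, fun k => (s k).2.2⟩

/-- a compatible sequence of approximations to `(1 + X) ^ (-1/2)` -/
noncomputable def pp (h2 : (2:F) ≠ 0) : ℕ → F[X] := (exists_poly h2).choose

variable (h2 : (2:F) ≠ 0)

lemma pp_sub (k : ℕ) : X ^ k ∣ pp h2 (k+1) - pp h2 k := (exists_poly h2).choose_spec.1 k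

lemma pp_sq (k : ℕ) : X ^ k ∣ (pp h2 k)^2 * (1 + X) - 1 := (exists_poly h2).choose_spec.2.1 k

lemma pp_zero (k : ℕ) : (pp h2 k).coeff 0 = 1 := (exists_poly h2).choose_spec.2.2 k

lemma pp_sub' {k l : ℕ} (hkl : k ≤ l) : X ^ k ∣ pp h2 l - pp h2 k := by
  induction l, hkl using Nat.le_induction with
  | base => simp
  | succ l hl ih =>
    have h1 : X ^ k ∣ pp h2 (l+1) - pp h2 l := (pow_dvd_pow X hl).trans (pp_sub h2 l)
    have := dvd_add h1 ih
    simpa using this

lemma pp_X (k : ℕ) : X ∣ pp h2 k - 1 := by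
  rw [X_dvd_iff]; simp [pp_zero]

lemma aeval_vanish {D : Module.End F V} {a : V} {k : ℕ} (h : (D ^ k) a = 0) {f : F[X]}
    (hf : X ^ k ∣ f) : aeval D f a = 0 := by
  obtain ⟨g, rfl⟩ := hf
  rw [mul_comm, map_mul, Module.End.mul_apply, map_pow, aeval_X, h, map_zero]

lemma aeval_congr {D : Module.End F V} {a : V} {k : ℕ} (h : (D ^ k) a = 0) {f g : F[X]}
    (hf : X ^ k ∣ f - g) : aeval D f a = aeval D g a := by
  have := aeval_vanish h hf
  rw [map_sub, LinearMap.sub_apply, sub_eq_zero] at this
  exact this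

open Classical in
/-- the operator `(1 + D) ^ (-1/2)` for a locally nilpotent operator `D` -/
noncomputable def rt (D : Module.End F V) (hD : LN D) : Module.End F V where
  toFun a := aeval D (pp h2 (Nat.find (hD a))) a
  map_add' a b := by
    have key : ∀ (c : V) (l : ℕ), (D ^ l) c = 0 →
        aeval D (pp h2 (Nat.find (hD c))) c = aeval D (pp h2 l) c := by
      intro c l hl
      exact (aeval_congr (Nat.find_spec (hD c)) (pp_sub' h2 (Nat.find_min' (hD c) hl))).symm
    obtain ⟨k, hk⟩ := hD a
    obtain ⟨l, hl⟩ := hD b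
    have hk' := pow_zero_of_le hk (le_max_left k l)
    have hl' := pow_zero_of_le hl (le_max_right k l)
    have hs : (D ^ (max k l)) (a + b) = 0 := by rw [map_add, hk', hl', add_zero]
    rw [key _ _ hk', key _ _ hl', key _ _ hs, map_add]
  map_smul' c a := by
    have key : ∀ (c : V) (l : ℕ), (D ^ l) c = 0 →
        aeval D (pp h2 (Nat.find (hD c))) c = aeval D (pp h2 l) c := by
      intro c l hl
      exact (aeval_congr (Nat.find_spec (hD c)) (pp_sub' h2 (Nat.find_min' (hD c) hl))).symm
    obtain ⟨k, hk⟩ := hD a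
    have hs : (D ^ k) (c • a) = 0 := by rw [map_smul, hk, smul_zero]
    rw [key _ _ hk, key _ _ hs, map_smul]
    rfl

open Classical in
lemma rt_apply {D : Module.End F V} (hD : LN D) {a : V} {k : ℕ} (h : (D ^ k) a = 0) :
    rt h2 D hD a = aeval D (pp h2 k) a :=
  (aeval_congr (Nat.find_spec (hD a)) (pp_sub' h2 (Nat.find_min' (hD a) h))).symm

lemma aeval_pow_zero {D : Module.End F V} {a : V} {k : ℕ} (h : (D ^ k) a = 0) (f : F[X]) :
    (D ^ k) (aeval D f a) = 0 := by
  have : (D ^ k) * aeval D f = aeval D f * D ^ k := by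
    have e : D ^ k = aeval D (X ^ k : F[X]) := by simp
    rw [e, ← map_mul, ← map_mul, mul_comm]
  rw [← Module.End.mul_apply, this, Module.End.mul_apply, h, map_zero]

lemma rt_sq {D : Module.End F V} (hD : LN D) :
    rt h2 D hD * rt h2 D hD * (1 + D) = 1 := by
  ext a
  obtain ⟨k, hk⟩ := hD a
  have h1 : (D ^ k) ((1 + D) a) = 0 := by
    have : (1 + D) a = aeval D (1 + X : F[X]) a := by simp
    rw [this]; exact aeval_pow_zero hk _
  have h3 : (D ^ k) (rt h2 D hD ((1 + D) a)) = 0 := by
    rw [rt_apply h2 hD h1]; exact aeval_pow_zero h1 _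
  rw [Module.End.mul_apply, Module.End.mul_apply, rt_apply h2 hD h3, rt_apply h2 hD h1]
  have : (1 + D) a = aeval D (1 + X : F[X]) a := by simp
  rw [this, ← Module.End.mul_apply (aeval D (pp h2 k)) (aeval D (1 + X : F[X])), ← map_mul,
    ← Module.End.mul_apply (aeval D (pp h2 k)) (aeval D _), ← map_mul]
  have e : (1 : Module.End F V) a = aeval D (1 : F[X]) a := by simp
  rw [e]
  apply aeval_congr hk
  have := pp_sq h2 k (F := F)
  rwa [sq, mul_assoc] at this

lemma rt_comm {D : Module.End F V} (hD : LN D) {c : Module.End F V} (hc : c * D = D * c) :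
    c * rt h2 D hD = rt h2 D hD * c := by
  ext a
  obtain ⟨k, hk⟩ := hD a
  have hck : c * D ^ k = D ^ k * c := (show Commute c D from hc).pow_right k
  have h1 : (D ^ k) (c a) = 0 := by
    rw [← Module.End.mul_apply, ← hck, Module.End.mul_apply, hk, map_zero]
  rw [Module.End.mul_apply, Module.End.mul_apply, rt_apply h2 hD hk, rt_apply h2 hD h1]
  have : c * aeval D (pp h2 k) = aeval D (pp h2 k) * c := by
    have h3 : Commute c D := hc
    induction (pp h2 k) using Polynomial.induction_on' with
    | add p q hp hq => rw [map_add, mul_add, hp, hq, add_mul]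
    | monomial n a =>
      rw [aeval_monomial]
      have h4 : Commute c (algebraMap F (Module.End F V) a) := (Algebra.commutes a c).symm
      exact h4.mul_right (h3.pow_right n)
  rw [← Module.End.mul_apply, this, Module.End.mul_apply]

lemma aeval_mem {D : Module.End F V} {S : Submodule F V} (h : ∀ x ∈ S, D x ∈ S) (g : F[X])
    {y : V} (hy : y ∈ S) : aeval D g y ∈ S := by
  induction g using Polynomial.induction_on' with
  | add p q hp hq => rw [map_add, LinearMap.add_apply]; exact S.add_mem hp hq
  | monomial n a =>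
    have h1 : (D ^ n) y ∈ S := by
      induction n with
      | zero => simpa using hy
      | succ n ih => rw [pow_succ', Module.End.mul_apply]; exact h _ ih
    rw [aeval_monomial, Module.End.mul_apply, Module.algebraMap_end_apply]
    exact S.smul_mem _ h1

lemma rt_sub {D : Module.End F V} (hD : LN D) (S S' : Submodule F V) (hS : S' ≤ S)
    (h : ∀ x ∈ S, D x ∈ S') : ∀ x ∈ S, rt h2 D hD x - x ∈ S' := by
  intro x hx
  obtain ⟨k, hk⟩ := hD x
  rw [rt_apply h2 hD hk]
  obtain ⟨g, hg⟩ := pp_X h2 k
  have e : aeval D (pp h2 k) x - x = aeval D g (D x) := by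
    have : aeval D (pp h2 k) x - x = aeval D (pp h2 k - 1) x := by simp
    rw [this, hg, mul_comm, map_mul, Module.End.mul_apply, aeval_X]
  rw [e]
  exact aeval_mem (fun y hy => h y (hS hy)) g (h x hx)

include h2 in
lemma bij_of_LN {D : Module.End F V} (hD : LN D) : Function.Bijective ((1 + D : Module.End F V)) := by
  have h1 := rt_sq h2 hD
  have hc : (1 + D) * rt h2 D hD = rt h2 D hD * (1 + D) := rt_comm h2 hD (by noncomm_ring)
  have h3 : (1 + D) * (rt h2 D hD * rt h2 D hD) = 1 := by
    rw [← mul_assoc, hc, mul_assoc, hc, ← mul_assoc, h1]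
  constructor
  · intro x y hxy
    have e1 := congrArg (fun l : Module.End F V => l x) h1
    have e2 := congrArg (fun l : Module.End F V => l y) h1
    simp only [Module.End.mul_apply, Module.End.one_apply] at e1 e2
    rw [← e1, ← e2, hxy]
  · intro x
    refine ⟨(rt h2 D hD * rt h2 D hD) x, ?_⟩
    have e1 := congrArg (fun l : Module.End F V => l x) h3
    simpa using e1

lemma rt_LN {D : Module.End F V} (hD : LN D) : LN (rt h2 D hD - 1) := by
  intro a
  obtain ⟨k, hk⟩ := hD a
  refine ⟨k, ?_⟩
  have key : ∀ j : ℕ, ((rt h2 D hD - 1) ^ j) a = aeval D ((pp h2 k - 1) ^ j) a := by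
    intro j
    induction j with
    | zero => simp
    | succ j ih =>
      rw [pow_succ', Module.End.mul_apply, ih, LinearMap.sub_apply,
        rt_apply h2 hD (aeval_pow_zero hk _), pow_succ', map_mul, Module.End.mul_apply]
      simp
  rw [key k]
  exact aeval_vanish hk (pow_dvd_pow_of_dvd (pp_X h2 k) k)

/-- sums of commuting locally nilpotent operators are locally nilpotent -/
lemma LN_add {D E : Module.End F V} (hD : LN D) (hE : LN E) (h : D * E = E * D) : LN (D + E) := by
  intro a
  obtain ⟨k, hk⟩ := hD a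
  obtain ⟨l, hl⟩ := hE a
  refine ⟨k + l, ?_⟩
  have hc : Commute D E := h
  rw [hc.add_pow, LinearMap.sum_apply]
  apply Finset.sum_eq_zero
  intro m hm
  rw [Finset.mem_range] at hm
  have e : D ^ m * E ^ (k + l - m) * ((k + l).choose m : Module.End F V) =
      ((k + l).choose m : Module.End F V) * (D ^ m * E ^ (k + l - m)) := by
    exact (Nat.cast_commute _ _).symm
  rw [e, Module.End.mul_apply]
  have e2 : (D ^ m * E ^ (k + l - m)) a = 0 := by
    rcases le_or_gt k m with h1 | h1
    · have : D ^ m * E ^ (k + l - m) = E ^ (k + l - m) * D ^ m := hc.pow_pow _ _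
      rw [this, Module.End.mul_apply, pow_zero_of_le hk h1, map_zero]
    · rw [Module.End.mul_apply, pow_zero_of_le hl (by omega), map_zero]
  rw [e2, map_zero]

lemma LN_mul {D E : Module.End F V} (hD : LN D) (h : D * E = E * D) : LN (E * D) := by
  intro a
  obtain ⟨k, hk⟩ := hD a
  refine ⟨k, ?_⟩
  have hc : Commute E D := h.symm
  rw [hc.mul_pow, Module.End.mul_apply, hk, map_zero]

include h2 in
lemma two_add_inj {D : Module.End F V} (hD : LN D) {x : V} (hx : (2:F) • x + D x = 0) : x = 0 := by
  obtain ⟨k, hk⟩ := hD x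
  induction k with
  | zero => simpa using hk
  | succ k ih =>
    apply ih
    have h1 : (D ^ k) ((2:F) • x + D x) = 0 := by rw [hx, map_zero]
    rw [map_add, ← Module.End.mul_apply, ← pow_succ, hk, add_zero, map_smul, smul_eq_zero] at h1
    exact h1.resolve_left h2

section alg

variable {A : Type*} [Ring A] [Algebra F A]

/-- the linear map of an algebra automorphism -/
def lin (h : A ≃ₐ[F] A) : Module.End F A := h.toLinearMap

@[simp] lemma lin_apply (h : A ≃ₐ[F] A) (x : A) : lin h x = h x := rfl

lemma lin_mul (g h : A ≃ₐ[F] A) : lin (g * h) = lin g * lin h := rfl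

lemma lin_one : lin (1 : A ≃ₐ[F] A) = 1 := rfl

lemma lin_inj {g h : A ≃ₐ[F] A} (e : lin g = lin h) : g = h := by
  ext x
  exact congrArg (fun l : Module.End F A => l x) e

/-- unipotent: `h - 1` is locally nilpotent -/
def Un (h : A ≃ₐ[F] A) : Prop := LN (lin h - 1)

include h2 in
theorem exists_root {h : A ≃ₐ[F] A} (hh : Un h) : ∃ r : A ≃ₐ[F] A,
    r * r * h = 1 ∧ Un r ∧ (∀ c : A ≃ₐ[F] A, c * h = h * c → c * r = r * c) ∧
    (∀ S S' : Submodule F A, S' ≤ S → (∀ x ∈ S, h x - x ∈ S') → ∀ x ∈ S, r x - x ∈ S') := by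
  set D := lin h - 1 with hDdef
  have hD : LN D := hh
  set R := rt h2 D hD with hR
  have hlin : lin h = 1 + D := by rw [hDdef]; abel
  have hsq : R * R * lin h = 1 := by rw [hlin]; exact rt_sq h2 hD
  have hcomm : lin h * R = R * lin h := rt_comm h2 hD (by rw [hlin]; noncomm_ring)
  have hsq' : lin h * (R * R) = 1 := by
    rw [← mul_assoc, hcomm, mul_assoc, hcomm, ← mul_assoc, hsq]
  have hRR : ∀ x, h (R (R x)) = x := fun x => by
    have := congrArg (fun l : Module.End F A => l x) hsq'
    simpa using this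
  have hRRmul : ∀ a b, R (R (a * b)) = R (R a) * R (R b) := by
    intro a b
    apply h.injective
    rw [hRR, _root_.map_mul h, hRR, hRR]
  have hone : R 1 = 1 := by
    have h1 : R 1 - 1 ∈ (⊥ : Submodule F A) := by
      apply rt_sub h2 hD (Submodule.span F {1}) ⊥ bot_le
      · intro x hx
        rw [Submodule.mem_span_singleton] at hx
        obtain ⟨c, rfl⟩ := hx
        simp [hDdef]
      · exact Submodule.mem_span_singleton_self 1
    rw [Submodule.mem_bot, sub_eq_zero] at h1
    exact h1
  set d := R - 1 with hd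
  have hdLN : LN d := rt_LN h2 hD
  have hRd : ∀ x, R x = x + d x := fun x => by rw [hd]; simp
  have hmul : ∀ n : ℕ, ∀ i j : ℕ, i + j ≤ n → ∀ a b : A, (d ^ i) a = 0 → (d ^ j) b = 0 →
      R (a * b) = R a * R b := by
    intro n
    induction n with
    | zero =>
      intro i j hij a b ha hb
      have hi : i = 0 := by omega
      subst hi
      have : a = 0 := by simpa using ha
      rw [this]; simp
    | succ n ih =>
      intro i j hij a b ha hb
      rcases i with _ | i
      · have : a = 0 := by simpa using ha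
        rw [this]; simp
      rcases j with _ | j
      · have : b = 0 := by simpa using hb
        rw [this]; simp
      have ha' : (d ^ i) (d a) = 0 := by rwa [← Module.End.mul_apply, ← pow_succ]
      have hb' : (d ^ j) (d b) = 0 := by rwa [← Module.End.mul_apply, ← pow_succ]
      have e1 := ih i (j+1) (by omega) (d a) b ha' hb
      have e2 := ih (i+1) j (by omega) a (d b) ha hb'
      have e3 := ih i j (by omega) (d a) (d b) ha' hb'
      set B := R (a * b) - R a * R b with hB
      have e4 : R (R a * R b) - R (R a) * R (R b) = B := by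
        rw [hRd a, hRd b]
        have : (a + d a) * (b + d b) = a * b + d a * b + a * d b + d a * d b := by noncomm_ring
        rw [this]
        simp only [map_add]
        rw [e1, e2, e3, hB]
        noncomm_ring
      have e5 : R B = - (R (R a * R b) - R (R a) * R (R b)) := by
        rw [hB, map_sub, hRRmul]; abel
      rw [e4] at e5
      have e6 : (2:F) • B + d B = 0 := by
        rw [hRd B] at e5
        rw [two_smul, add_assoc, e5]; abel
      have := two_add_inj h2 hdLN e6
      rw [hB, sub_eq_zero] at this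
      exact this
  have hmul' : ∀ a b, R (a * b) = R a * R b := by
    intro a b
    obtain ⟨i, hi⟩ := hdLN a
    obtain ⟨j, hj⟩ := hdLN b
    exact hmul (i + j) i j le_rfl a b hi hj
  have hbij : Function.Bijective R := by
    constructor
    · intro x y hxy
      rw [← hRR x, ← hRR y, hxy]
    · intro x
      refine ⟨R (h x), ?_⟩
      have := congrArg (fun l : Module.End F A => l x) hsq
      simpa using this
  let r0 : A →ₐ[F] A := AlgHom.ofLinearMap R hone hmul'
  let r : A ≃ₐ[F] A := AlgEquiv.ofBijective r0 hbij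
  have hr : lin r = R := rfl
  refine ⟨r, ?_, ?_, ?_, ?_⟩
  · apply lin_inj
    rw [lin_mul, lin_mul, hr, hsq]; rfl
  · unfold Un; rw [hr]; exact hdLN
  · intro c hc
    apply lin_inj
    rw [lin_mul, lin_mul, hr]
    apply rt_comm h2 hD
    rw [hDdef, mul_sub, sub_mul, ← lin_mul, ← lin_mul, hc]; simp
  · intro S S' hS hx x hxS
    exact rt_sub h2 hD S S' hS (fun y hy => hx y hy) x hxS

lemma root_fix {h r : A ≃ₐ[F] A}
    (hr : ∀ S S' : Submodule F A, S' ≤ S → (∀ x ∈ S, h x - x ∈ S') → ∀ x ∈ S, r x - x ∈ S')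
    {x : A} (hx : h x = x) : r x = x := by
  have h1 : r x - x ∈ (⊥ : Submodule F A) := by
    apply hr (Submodule.span F {x}) ⊥ bot_le
    · intro y hy
      rw [Submodule.mem_span_singleton] at hy
      obtain ⟨c, rfl⟩ := hy
      simp [hx]
    · exact Submodule.mem_span_singleton_self x
  rw [Submodule.mem_bot, sub_eq_zero] at h1
  exact h1

lemma root_all {h r : A ≃ₐ[F] A}
    (hr : ∀ S S' : Submodule F A, S' ≤ S → (∀ x ∈ S, h x - x ∈ S') → ∀ x ∈ S, r x - x ∈ S')
    {S : Submodule F A} (hx : ∀ x, h x - x ∈ S) : ∀ x, r x - x ∈ S := fun x =>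
  hr ⊤ S le_top (fun y _ => hx y) x trivial

lemma root_stable {h r : A ≃ₐ[F] A}
    (hr : ∀ S S' : Submodule F A, S' ≤ S → (∀ x ∈ S, h x - x ∈ S') → ∀ x ∈ S, r x - x ∈ S')
    {S : Submodule F A} (hx : ∀ x ∈ S, h x ∈ S) : ∀ x ∈ S, r x ∈ S := by
  intro x hxS
  have := S.add_mem (hr S S le_rfl (fun y hy => S.sub_mem (hx y hy) hy) x hxS) hxS
  simpa using this

include h2 in
lemma eq_one_of_sq {t : A ≃ₐ[F] A} (ht : Un t) (h : t * t = 1) : t = 1 := by
  ext x
  have h1 : t (t x) = x := by
    have := congrArg (fun l : A ≃ₐ[F] A => l x) h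
    simpa using this
  have h3 : (2:F) • (t x - x) + (lin t - 1) (t x - x) = 0 := by
    simp only [LinearMap.sub_apply, lin_apply, map_sub, h1, two_smul, Module.End.one_apply]
    abel
  have := two_add_inj h2 ht h3
  rw [sub_eq_zero] at this
  simpa using this

lemma Un_mul {g h : A ≃ₐ[F] A} (hg : Un g) (hh : Un h) (hc : g * h = h * g) : Un (g * h) := by
  unfold Un at *
  have hc' : lin g * lin h = lin h * lin g := by rw [← lin_mul, ← lin_mul, hc]
  have e : lin (g * h) - 1 = lin h * (lin g - 1) + (lin h - 1) := by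
    rw [lin_mul, mul_sub, hc']; simp
  rw [e]
  apply LN_add
  · apply LN_mul hg
    rw [mul_sub, sub_mul, hc']; simp
  · exact hh
  · have c1 : Commute (lin g) (lin h) := hc'
    have c2 : Commute (lin h * (lin g - 1)) (lin h) :=
      (Commute.refl _).mul_left (c1.sub_left (Commute.one_left _))
    exact c2.sub_right (Commute.one_right _)

lemma Un_conj {h : A ≃ₐ[F] A} (hh : Un h) (c : A ≃ₐ[F] A) : Un (c * h * c⁻¹) := by
  intro a
  obtain ⟨k, hk⟩ := hh (c⁻¹ a)
  refine ⟨k, ?_⟩
  have key : ∀ j : ℕ, ((lin (c * h * c⁻¹) - 1) ^ j) a = c (((lin h - 1) ^ j) (c⁻¹ a)) := by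
    intro j
    induction j with
    | zero => 
      simp only [pow_zero, Module.End.one_apply]
      rw [← AlgEquiv.mul_apply, mul_inv_cancel, AlgEquiv.one_apply]
    | succ j ih =>
      rw [pow_succ', Module.End.mul_apply, ih, pow_succ', Module.End.mul_apply]
      simp only [LinearMap.sub_apply, lin_apply, Module.End.one_apply, AlgEquiv.mul_apply, map_sub]
      congr 2
      rw [← AlgEquiv.mul_apply c⁻¹ c, inv_mul_cancel, AlgEquiv.one_apply]
  rw [key k, hk, map_zero]

include h2 in
/-- an involution inverting `h` inverts the inverse square root of `h` -/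
lemma inv_root {α h r : A ≃ₐ[F] A} (hα : α * α = 1) (hαh : α * h * α = h⁻¹)
    (hr : r * r * h = 1) (hun : Un r)
    (hc : ∀ c : A ≃ₐ[F] A, c * h = h * c → c * r = r * c) : α * r * α = r⁻¹ := by
  have hα' : α⁻¹ = α := inv_eq_of_mul_eq_one_left hα
  have hrh : r * h = h * r := (hc h rfl).symm
  -- `α r α` commutes with `h`
  have h1 : (α * r * α) * h⁻¹ = h⁻¹ * (α * r * α) := by
    rw [← hαh]
    have : ∀ x y : A ≃ₐ[F] A, (α * x * α) * (α * y * α) = α * (x * y) * α := by
      intro x y
      calc (α * x * α) * (α * y * α) = α * x * (α * α) * y * α := by group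
        _ = α * (x * y) * α := by rw [hα]; group
    rw [this, this, hrh]
  have h1' : (α * r * α) * h = h * (α * r * α) := by
    have h1'' : Commute (α * r * α) h⁻¹ := h1
    exact (Commute.inv_right_iff.mp h1'')
  have h3 : (α * r * α) * r = r * (α * r * α) := hc _ h1'
  have hrr : r * r = h⁻¹ := eq_inv_of_mul_eq_one_left hr
  have h4 : (α * r * α * r) * (α * r * α * r) = 1 := by
    calc (α * r * α * r) * (α * r * α * r) = (α * r * α) * (r * (α * r * α)) * r := by group
      _ = (α * r * α) * ((α * r * α) * r) * r := by rw [h3]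
      _ = α * r * (α * α) * r * α * (r * r) := by group
      _ = α * (r * r) * α * (r * r) := by rw [hα]; group
      _ = α * h⁻¹ * α * h⁻¹ := by rw [hrr]
      _ = (α * h * α)⁻¹ * h⁻¹ := by
        rw [mul_inv_rev, mul_inv_rev, hα']; group
      _ = 1 := by rw [hαh]; group
  have h5 : Un (α * r * α * r) := by
    apply Un_mul _ hun h3
    have := Un_conj hun α
    rwa [hα'] at this
  have h6 := eq_one_of_sq h2 h5 h4
  exact eq_inv_of_mul_eq_one_left h6

include h2 in
/-- two involutions whose product is unipotent are conjugate -/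
lemma conj_root {α β r : A ≃ₐ[F] A} (hα : α * α = 1) (hβ : β * β = 1)
    (hr : r * r * (β * α) = 1) (hun : Un r)
    (hc : ∀ c : A ≃ₐ[F] A, c * (β * α) = (β * α) * c → c * r = r * c) : α * r = r * β := by
  have hα' : α⁻¹ = α := inv_eq_of_mul_eq_one_left hα
  have hβ' : β⁻¹ = β := inv_eq_of_mul_eq_one_left hβ
  have h1 : α * (β * α) * α = (β * α)⁻¹ := by
    rw [mul_inv_rev, hα', hβ']
    calc α * (β * α) * α = α * β * (α * α) := by group
      _ = α * β := by rw [hα]; group
  have h3 := inv_root h2 hα h1 hr hun hc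
  have h4 : α * r = r⁻¹ * α := by
    rw [← h3]
    calc α * r = α * r * 1 := by group
      _ = α * r * (α * α) := by rw [hα]
      _ = _ := by group
  rw [h4]
  have h5 : β = (β * α) * α := by
    rw [mul_assoc, hα, mul_one]
  have h6 : r * (β * α) = r⁻¹ := by
    have : r * (r * (β * α)) = 1 := by rw [← mul_assoc]; exact hr
    exact eq_inv_of_mul_eq_one_right this
  calc r⁻¹ * α = r * (β * α) * α := by rw [h6]
    _ = r * β := by rw [mul_assoc, ← h5]

end alg

end Pool.Agent.H89R3.Gr
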