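import Mathlib
import Pool.Agent.H89R3.LN

/-!
# Basic facts on the Grassmann algebra of a space with a countable basis
-/

set_option autoImplicit false

open ExteriorAlgebra

noncomputable section

namespace Pool.Agent.H89R3.Gr

variable {F : Type*} [Field F]

/-- the Grassmann algebra of a space with countable basis -/
abbrev E (F : Type*) [Field F] := ExteriorAlgebra F (ℕ →₀ F)

/-- the standard generators -/
def e (i : ℕ) : E F := ι F (Finsupp.single i 1)

lemma hom_ext' {A : Type*} [Ring A] [Algebra F A] {f g : E F →ₐ[F] A} (h : ∀ i, f (e i) = g (e i)) :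
    f = g := by
  apply ExteriorAlgebra.hom_ext
  apply Finsupp.lhom_ext'
  intro i
  apply LinearMap.ext_ring
  exact h i

/-- the parity automorphism as a homomorphism -/
def tau0 : E F →ₐ[F] E F := ExteriorAlgebra.map (-LinearMap.id)

lemma tau0_ι (m : ℕ →₀ F) : tau0 (ι F m) = - ι F m := by
  simp [tau0]

lemma tau0_tau0 : (tau0 : E F →ₐ[F] E F).comp tau0 = AlgHom.id F (E F) := by
  apply hom_ext'
  intro i
  simp [e, tau0_ι]

/-- the parity automorphism -/
def tau : E F ≃ₐ[F] E F := AlgEquiv.ofAlgHom tau0 tau0 tau0_tau0 tau0_tau0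

@[simp] lemma tau_ι (m : ℕ →₀ F) : tau (ι F m) = - ι F m := tau0_ι m

@[simp] lemma tau_e (i : ℕ) : tau (e i : E F) = - e i := tau0_ι _

@[simp] lemma tau_tau (x : E F) : tau (tau x) = x :=
  congrArg (fun l : E F →ₐ[F] E F => l x) tau0_tau0

lemma tau_sq : (tau : E F ≃ₐ[F] E F) * tau = 1 := by
  ext x; exact tau_tau x

section char

variable (h2 : (2:F) ≠ 0)

include h2 in
lemma cancel2 {V : Type*} [AddCommGroup V] [Module F V] {x y : V} (h : (2:F) • x = (2:F) • y) : x = y := by
  have := congrArg (fun z => (2:F)⁻¹ • z) h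
  simpa [smul_smul, h2] using this

include h2 in
lemma super (x : E F) : ∀ y : E F, (2:F) • (x * y) = y * (x + tau x) + tau y * (x - tau x) := by
  induction x using ExteriorAlgebra.induction with
  | algebraMap r =>
    intro y
    simp only [AlgEquiv.commutes, sub_self, mul_zero, add_zero, two_smul, mul_add]
    rw [Algebra.commutes]
  | ι m =>
    intro y
    have h : ι F m * y = tau y * ι F m := by
      induction y using ExteriorAlgebra.induction with
      | algebraMap r => simp only [AlgEquiv.commutes]; rw [Algebra.commutes]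
      | ι m' =>
        have := ι_add_mul_swap (R := F) m m'
        rw [tau_ι, neg_mul]
        exact eq_neg_of_add_eq_zero_left this
      | mul a b ha hb =>
        rw [map_mul, ← mul_assoc, ha, mul_assoc, hb, ← mul_assoc]
      | add a b ha hb => rw [map_add, mul_add, ha, hb, add_mul]
    rw [tau_ι, h]
    simp only [add_neg_cancel, mul_zero, zero_add, sub_neg_eq_add, mul_add, two_smul]
  | mul a b ha hb =>
    intro y
    apply cancel2 h2
    have e1 : (2:F) • ((2:F) • (a * b * y)) = (2:F) • (a * ((2:F) • (b * y))) := by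
      rw [mul_smul_comm, mul_assoc]
    have e2 : (2:F) • (a * (y * (b + tau b))) = ((2:F) • (a * y)) * (b + tau b) := by
      rw [smul_mul_assoc, mul_assoc]
    have e3 : (2:F) • (a * (tau y * (b - tau b))) = ((2:F) • (a * tau y)) * (b - tau b) := by
      rw [smul_mul_assoc, mul_assoc]
    rw [e1, hb, mul_add, smul_add, e2, e3, ha, ha, tau_tau, two_smul, map_mul]
    noncomm_ring
  | add a b ha hb =>
    intro y
    rw [add_mul, smul_add, ha, hb, map_add]
    noncomm_ring

include h2 in
lemma odd_mul {x : E F} (hx : tau x = -x) (y : E F) : x * y = tau y * x := by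
  apply cancel2 h2
  rw [super h2, hx, two_smul]
  noncomm_ring

include h2 in
lemma even_mul {x : E F} (hx : tau x = x) (y : E F) : x * y = y * x := by
  apply cancel2 h2
  rw [super h2, hx, two_smul]
  noncomm_ring

include h2 in
lemma odd_sq {x : E F} (hx : tau x = -x) : x * x = 0 := by
  have h := odd_mul h2 hx x
  rw [hx, neg_mul] at h
  have : (2:F) • (x * x) = (2:F) • 0 := by
    rw [two_smul, smul_zero]; nth_rewrite 1 [h]; simp
  exact cancel2 h2 this

lemma lc_odd {f : ℕ → E F} (hf : ∀ i, tau (f i) = - f i) (m : ℕ →₀ F) :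
    tau (Finsupp.linearCombination F f m) = - Finsupp.linearCombination F f m := by
  induction m using Finsupp.induction_linear with
  | zero => simp
  | add a b ha hb => rw [map_add, map_add, ha, hb]; abel
  | single i c => simp [hf]

/-- the endomorphism with prescribed odd images of the generators -/
def L (f : ℕ → E F) (hf : ∀ i, tau (f i) = - f i) : E F →ₐ[F] E F :=
  ExteriorAlgebra.lift F ⟨Finsupp.linearCombination F f, fun m => odd_sq h2 (lc_odd hf m)⟩

@[simp] lemma L_e (f : ℕ → E F) (hf : ∀ i, tau (f i) = - f i) (i : ℕ) : L h2 f hf (e i) = f i := by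
  unfold L e
  rw [ExteriorAlgebra.lift_ι_apply]
  simp

lemma comm_tau {h : E F →ₐ[F] E F} (hh : ∀ i, tau (h (e i)) = - h (e i)) (x : E F) :
    tau (h x) = h (tau x) := by
  have : (tau : E F ≃ₐ[F] E F).toAlgHom.comp h = h.comp (tau : E F ≃ₐ[F] E F).toAlgHom := by
    apply hom_ext'
    intro i
    simp [hh]
  exact congrArg (fun l : E F →ₐ[F] E F => l x) this

/-- the truncation: kill the generators with index at least `N` -/
def pr (N : ℕ) : E F →ₐ[F] E F :=
  L h2 (fun i => if i < N then e i else 0) (fun i => by split_ifs <;> simp)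

lemma pr_e_lt {N i : ℕ} (h : i < N) : pr h2 N (e i : E F) = e i := by
  simp [pr, h]

lemma pr_e_ge {N i : ℕ} (h : N ≤ i) : pr h2 N (e i : E F) = 0 := by
  simp [pr, h]

lemma pr_tau (N : ℕ) (x : E F) : tau (pr h2 N x) = pr h2 N (tau x) := by
  apply comm_tau
  intro i
  rcases lt_or_ge i N with h | h
  · rw [pr_e_lt h2 h]; simp
  · rw [pr_e_ge h2 h]; simp

lemma pr_pr {N M : ℕ} (h : N ≤ M) (x : E F) : pr h2 M (pr h2 N x) = pr h2 N x := by
  have : (pr h2 M).comp (pr h2 N) = (pr h2 N : E F →ₐ[F] E F) := by
    apply hom_ext'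
    intro i
    rcases lt_or_ge i N with h1 | h1
    · simp [pr_e_lt h2 h1, pr_e_lt h2 (lt_of_lt_of_le h1 h)]
    · simp [pr_e_ge h2 h1]
  exact congrArg (fun l : E F →ₐ[F] E F => l x) this

lemma pr_mono {N M : ℕ} (h : N ≤ M) {x : E F} (hx : pr h2 N x = x) : pr h2 M x = x := by
  rw [← hx, pr_pr h2 h]

lemma exists_pr (x : E F) : ∃ N, pr h2 N x = x := by
  induction x using ExteriorAlgebra.induction with
  | algebraMap r => exact ⟨0, by simp⟩
  | ι m =>
    induction m using Finsupp.induction_linear with
    | zero => exact ⟨0, by simp⟩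
    | add a b ha hb =>
      obtain ⟨N, hN⟩ := ha
      obtain ⟨M, hM⟩ := hb
      refine ⟨max N M, ?_⟩
      rw [map_add, map_add, pr_mono h2 (le_max_left N M) hN, pr_mono h2 (le_max_right N M) hM]
    | single i c =>
      refine ⟨i + 1, ?_⟩
      have : (Finsupp.single i c : ℕ →₀ F) = c • Finsupp.single i 1 := by simp
      rw [this, map_smul, map_smul]
      congr 1
      exact pr_e_lt h2 (Nat.lt_succ_self i)
  | mul a b ha hb =>
    obtain ⟨N, hN⟩ := ha
    obtain ⟨M, hM⟩ := hb
    refine ⟨max N M, ?_⟩
    rw [map_mul, pr_mono h2 (le_max_left N M) hN, pr_mono h2 (le_max_right N M) hM]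
  | add a b ha hb =>
    obtain ⟨N, hN⟩ := ha
    obtain ⟨M, hM⟩ := hb
    refine ⟨max N M, ?_⟩
    rw [map_add, pr_mono h2 (le_max_left N M) hN, pr_mono h2 (le_max_right N M) hM]

/-- the subalgebra generated by the first `N` generators, as a submodule -/
def Sub (N : ℕ) : Submodule F (E F) := LinearMap.ker ((pr h2 N).toLinearMap - LinearMap.id)

lemma mem_Sub {N : ℕ} {x : E F} : x ∈ Sub h2 N ↔ pr h2 N x = x := by
  simp [Sub, sub_eq_zero]

lemma pr_mem_Sub (N : ℕ) (x : E F) : pr h2 N x ∈ Sub h2 N := by
  rw [mem_Sub]; exact pr_pr h2 le_rfl x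

lemma Sub_mono {N M : ℕ} (h : N ≤ M) : (Sub h2 N : Submodule F (E F)) ≤ Sub h2 M := by
  intro x hx
  rw [mem_Sub] at *
  exact pr_mono h2 h hx

lemma Sub_mul (N : ℕ) : (Sub h2 N * Sub h2 N : Submodule F (E F)) ≤ Sub h2 N := by
  rw [Submodule.mul_le]
  intro a ha b hb
  rw [mem_Sub] at *
  rw [map_mul, ha, hb]

lemma one_mem_Sub (N : ℕ) : (1 : E F) ∈ Sub h2 N := by rw [mem_Sub]; simp

lemma e_mem_Sub {N i : ℕ} (h : i < N) : (e i : E F) ∈ Sub h2 N := by
  rw [mem_Sub]; exact pr_e_lt h2 h

lemma tau_mem_Sub {N : ℕ} {x : E F} (hx : x ∈ Sub h2 N) : tau x ∈ Sub h2 N := by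
  rw [mem_Sub] at *
  rw [← pr_tau, hx]

lemma iSup_Sub : (⨆ N, Sub h2 N : Submodule F (E F)) = ⊤ := by
  rw [eq_top_iff]
  intro x _
  obtain ⟨N, hN⟩ := exists_pr h2 x
  exact Submodule.mem_iSup_of_mem N ((mem_Sub h2).mpr hN)

/-- auxiliary finitely generated submodules -/
def PP : ℕ → Submodule F (E F)
  | 0 => 1
  | (N+1) => PP N * (1 ⊔ Submodule.span F {e N})

lemma PP_fg (N : ℕ) : (PP N : Submodule F (E F)).FG := by
  have h1 : (1 : Submodule F (E F)).FG := by
    rw [Submodule.one_eq_span]; exact Submodule.fg_span_singleton _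
  induction N with
  | zero => exact h1
  | succ N ih =>
    exact ih.mul (h1.sup (Submodule.fg_span_singleton _))

lemma one_mem_one' : (1 : E F) ∈ (1 : Submodule F (E F)) := by
  rw [Submodule.mem_one]; exact ⟨1, map_one _⟩

lemma PP_one (N : ℕ) : (1 : E F) ∈ (PP N : Submodule F (E F)) := by
  induction N with
  | zero => exact one_mem_one'
  | succ N ih =>
    have := Submodule.mul_mem_mul ih (Submodule.mem_sup_left (T := Submodule.span F {(e N : E F)})
      one_mem_one')
    simpa [PP] using this

lemma PP_le (N : ℕ) : (PP N : Submodule F (E F)) ≤ PP (N+1) := by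
  intro x hx
  have := Submodule.mul_mem_mul hx (Submodule.mem_sup_left (T := Submodule.span F {(e N : E F)})
      one_mem_one')
  simpa [PP] using this

lemma PP_e (N i : ℕ) (h : i < N) : (e i : E F) ∈ (PP N : Submodule F (E F)) := by
  induction N with
  | zero => omega
  | succ N ih =>
    rcases Nat.lt_succ_iff_lt_or_eq.mp h with h1 | h1
    · exact PP_le N (ih h1)
    · subst h1
      have := Submodule.mul_mem_mul (PP_one (F := F) i) (Submodule.mem_sup_right (S := 1)
        (Submodule.mem_span_singleton_self (e i : E F)))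
      simpa [PP] using this

lemma PP_tau (N : ℕ) : ∀ x ∈ (PP N : Submodule F (E F)), tau x ∈ (PP N : Submodule F (E F)) := by
  induction N with
  | zero =>
    intro x hx
    rw [PP, Submodule.mem_one] at *
    obtain ⟨y, rfl⟩ := hx
    exact ⟨y, by simp⟩
  | succ N ih =>
    intro x hx
    rw [PP] at *
    induction hx using Submodule.mul_induction_on' with
    | mem_mul_mem a ha b hb =>
      rw [map_mul]
      apply Submodule.mul_mem_mul (ih a ha)
      rw [Submodule.mem_sup] at hb
      obtain ⟨y, hy, z, hz, rfl⟩ := hb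
      rw [Submodule.mem_one] at hy
      obtain ⟨c, rfl⟩ := hy
      rw [Submodule.mem_span_singleton] at hz
      obtain ⟨d, rfl⟩ := hz
      rw [map_add, AlgEquiv.commutes, map_smul, tau_e]
      apply Submodule.add_mem_sup
      · exact Submodule.algebraMap_mem c
      · rw [smul_neg]
        exact Submodule.neg_mem _ (Submodule.smul_mem _ _ (Submodule.mem_span_singleton_self _))
    | add x _ y _ hx hy => rw [map_add]; exact Submodule.add_mem _ hx hy

include h2 in
lemma PP_mul (N : ℕ) : (PP N * PP N : Submodule F (E F)) ≤ PP N := by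
  induction N with
  | zero => simp [PP]
  | succ N ih =>
    have h1 : ((1 ⊔ Submodule.span F {e N}) * PP N : Submodule F (E F)) ≤
        PP N * (1 ⊔ Submodule.span F {e N}) := by
      rw [Submodule.sup_mul, one_mul, Submodule.mul_sup, mul_one]
      apply sup_le_sup_left
      rw [Submodule.mul_le]
      intro a ha b hb
      rw [Submodule.mem_span_singleton] at ha
      obtain ⟨c, rfl⟩ := ha
      rw [smul_mul_assoc, odd_mul h2 (tau_e N)]
      apply Submodule.smul_mem
      exact Submodule.mul_mem_mul (PP_tau N b hb) (Submodule.mem_span_singleton_self _)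
    have h3 : ((1 ⊔ Submodule.span F {e N}) * (1 ⊔ Submodule.span F {e N}) : Submodule F (E F)) ≤
        (1 ⊔ Submodule.span F {e N}) := by
      rw [Submodule.sup_mul, one_mul, Submodule.mul_sup, mul_one]
      apply sup_le le_rfl
      apply sup_le le_sup_right
      rw [Submodule.span_mul_span, Set.singleton_mul_singleton, odd_sq h2 (tau_e N)]
      simp
    calc (PP (N+1) * PP (N+1) : Submodule F (E F))
        = PP N * ((1 ⊔ Submodule.span F {e N}) * PP N) * (1 ⊔ Submodule.span F {e N}) := by
          rw [PP]; simp only [mul_assoc]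
      _ ≤ PP N * (PP N * (1 ⊔ Submodule.span F {e N})) * (1 ⊔ Submodule.span F {e N}) := by
          gcongr
      _ = (PP N * PP N) * ((1 ⊔ Submodule.span F {e N}) * (1 ⊔ Submodule.span F {e N})) := by
          simp only [mul_assoc]
      _ ≤ PP N * (1 ⊔ Submodule.span F {e N}) := by gcongr
      _ = PP (N+1) := by rw [PP]

lemma pr_mem_PP (N : ℕ) (x : E F) : pr h2 N x ∈ (PP N : Submodule F (E F)) := by
  induction x using ExteriorAlgebra.induction with
  | algebraMap r =>
    rw [AlgHom.commutes, Algebra.algebraMap_eq_smul_one]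
    exact Submodule.smul_mem _ _ (PP_one N)
  | ι m =>
    induction m using Finsupp.induction_linear with
    | zero => simp
    | add a b ha hb => rw [map_add, map_add]; exact Submodule.add_mem _ ha hb
    | single i c =>
      have : (Finsupp.single i c : ℕ →₀ F) = c • Finsupp.single i 1 := by simp
      rw [this, map_smul, map_smul]
      apply Submodule.smul_mem
      change pr h2 N (e i) ∈ _
      rcases lt_or_ge i N with h | h
      · rw [pr_e_lt h2 h]; exact PP_e N i h
      · rw [pr_e_ge h2 h]; exact Submodule.zero_mem _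
  | mul a b ha hb =>
    rw [map_mul]; exact PP_mul h2 N (Submodule.mul_mem_mul ha hb)
  | add a b ha hb => rw [map_add]; exact Submodule.add_mem _ ha hb

lemma Sub_fg (N : ℕ) : (Sub h2 N : Submodule F (E F)).FG := by
  have h : (Sub h2 N : Submodule F (E F)) ≤ PP N := by
    intro x hx
    rw [← (mem_Sub h2).mp hx]
    exact pr_mem_PP h2 N x
  have hf : FiniteDimensional F (PP N : Submodule F (E F)) :=
    Module.Finite.iff_fg.mpr (PP_fg N)
  have : FiniteDimensional F (Sub h2 N : Submodule F (E F)) := Submodule.finiteDimensional_of_le h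
  exact Module.Finite.iff_fg.mp this

end char

end Pool.Agent.H89R3.Gr
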