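import Mathlib
import Pool.Agent.H89R3.Gras

/-!
# The filtration of the Grassmann algebra by powers of the augmentation ideal, and its centre
-/

set_option autoImplicit false

open ExteriorAlgebra

noncomputable section

namespace Pool.Agent.H89R3.Gr

variable {F : Type*} [Field F]

/-- the space spanned by the generators -/
abbrev VV : Submodule F (E F) := LinearMap.range (ι F)

/-- powers of the augmentation ideal -/
def Fil (k : ℕ) : Submodule F (E F) := VV ^ k * ⊤

lemma Fil_zero : (Fil 0 : Submodule F (E F)) = ⊤ := by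
  rw [Fil, pow_zero, one_mul]

lemma top_mul_top : (⊤ * ⊤ : Submodule F (E F)) = ⊤ := by
  rw [eq_top_iff]
  intro x _
  have := Submodule.mul_mem_mul (Submodule.mem_top (x := (1 : E F)) (R := F)) (Submodule.mem_top (x := x) (R := F))
  simpa using this

lemma Fil_mul_top (k : ℕ) : (Fil k * ⊤ : Submodule F (E F)) ≤ Fil k := by
  rw [Fil, mul_assoc, top_mul_top]

lemma Fil_anti {k l : ℕ} (h : k ≤ l) : (Fil l : Submodule F (E F)) ≤ Fil k := by
  obtain ⟨m, rfl⟩ := Nat.exists_eq_add_of_le h
  rw [Fil, Fil, pow_add, mul_assoc]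
  gcongr
  exact le_top

section char

variable (h2 : (2:F) ≠ 0)

include h2 in
lemma top_mul_VV : (⊤ * VV : Submodule F (E F)) ≤ VV * ⊤ := by
  rw [Submodule.mul_le]
  rintro y _ _ ⟨m, rfl⟩
  have : y * ι F m = ι F m * tau y := by
    rw [odd_mul h2 (tau_ι m), tau_tau]
  rw [this]
  exact Submodule.mul_mem_mul ⟨m, rfl⟩ Submodule.mem_top

include h2 in
lemma top_mul_pow (k : ℕ) : (⊤ * VV ^ k : Submodule F (E F)) ≤ VV ^ k * ⊤ := by
  induction k with
  | zero => simp
  | succ k ih =>
    calc (⊤ * VV ^ (k+1) : Submodule F (E F)) = (⊤ * VV ^ k) * VV := by rw [pow_succ, mul_assoc]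
      _ ≤ (VV ^ k * ⊤) * VV := by gcongr
      _ = VV ^ k * (⊤ * VV) := by rw [mul_assoc]
      _ ≤ VV ^ k * (VV * ⊤) := mul_le_mul' le_rfl (top_mul_VV h2)
      _ = VV ^ (k+1) * ⊤ := by rw [pow_succ, mul_assoc]

include h2 in
lemma Fil_mul (k l : ℕ) : (Fil k * Fil l : Submodule F (E F)) ≤ Fil (k + l) := by
  calc (Fil k * Fil l : Submodule F (E F)) = VV ^ k * (⊤ * VV ^ l) * ⊤ := by
        rw [Fil, Fil]; simp only [mul_assoc]
    _ ≤ VV ^ k * (VV ^ l * ⊤) * ⊤ :=
        mul_le_mul' (mul_le_mul' le_rfl (top_mul_pow h2 l)) le_rfl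
    _ = VV ^ (k + l) * (⊤ * ⊤) := by rw [pow_add]; simp only [mul_assoc]
    _ = Fil (k + l) := by rw [top_mul_top, Fil]

include h2 in
lemma mul_mem_Fil {k l n : ℕ} {x y : E F} (hx : x ∈ (Fil k : Submodule F (E F))) (hy : y ∈ (Fil l : Submodule F (E F)))
    (h : n ≤ k + l) : x * y ∈ (Fil n : Submodule F (E F)) :=
  Fil_anti h (Fil_mul h2 k l (Submodule.mul_mem_mul hx hy))

lemma mem_Fil_zero (x : E F) : x ∈ (Fil 0 : Submodule F (E F)) := by rw [Fil_zero]; trivial

lemma VV_le : (VV : Submodule F (E F)) ≤ Fil 1 := by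
  intro x hx
  have := Submodule.mul_mem_mul hx (Submodule.mem_top (x := (1 : E F)) (R := F))
  rw [mul_one] at this
  simpa [Fil] using this

lemma e_mem_Fil (i : ℕ) : (e i : E F) ∈ (Fil 1 : Submodule F (E F)) := VV_le ⟨_, rfl⟩

lemma VV_pow_le (k : ℕ) : (VV ^ k : Submodule F (E F)) ≤ Fil k := by
  intro x hx
  have := Submodule.mul_mem_mul hx (Submodule.mem_top (x := (1 : E F)) (R := F))
  rw [mul_one] at this
  simpa [Fil] using this

include h2 in
lemma Fil_one_pow (k : ℕ) : ((Fil 1) ^ k : Submodule F (E F)) ≤ Fil k := by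
  induction k with
  | zero => rw [Fil_zero]; exact le_top
  | succ k ih =>
    calc ((Fil 1) ^ (k+1) : Submodule F (E F)) = (Fil 1)^k * Fil 1 := by rw [pow_succ]
      _ ≤ Fil k * Fil 1 := by gcongr
      _ ≤ Fil (k+1) := Fil_mul h2 k 1

/-- induction for linear statements on `VV` -/
lemma lin_ind {P : Submodule F (E F)} {h : (E F) →ₗ[F] E F} (hP : ∀ i, h (e i) ∈ P) :
    ∀ m, h (ι F m) ∈ P := by
  intro m
  induction m using Finsupp.induction_linear with
  | zero => simp
  | add a b ha hb => rw [map_add, map_add]; exact P.add_mem ha hb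
  | single i c =>
    have : (Finsupp.single i c : ℕ →₀ F) = c • Finsupp.single i 1 := by simp
    rw [this, map_smul, map_smul]
    exact P.smul_mem _ (hP i)

include h2 in
lemma hom_Fil {h : E F →ₐ[F] E F} (hh : ∀ i, h (e i) ∈ (Fil 1 : Submodule F (E F))) (k : ℕ) {x : E F}
    (hx : x ∈ (Fil k : Submodule F (E F))) : h x ∈ (Fil k : Submodule F (E F)) := by
  have h1 : (VV : Submodule F (E F)).map h.toLinearMap ≤ Fil 1 := by
    rw [Submodule.map_le_iff_le_comap]
    rintro _ ⟨m, rfl⟩
    exact lin_ind (h := h.toLinearMap) hh m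
  have h3 : (Fil k : Submodule F (E F)).map h.toLinearMap ≤ Fil k := by
    calc (Fil k : Submodule F (E F)).map h.toLinearMap 
        = (VV.map h.toLinearMap) ^ k * (⊤ : Submodule F (E F)).map h.toLinearMap := by
          rw [Fil, Submodule.map_mul, Submodule.map_pow]
      _ ≤ (Fil 1) ^ k * ⊤ := by gcongr; exact le_top
      _ ≤ Fil k * ⊤ := by gcongr; exact Fil_one_pow h2 k
      _ ≤ Fil k := Fil_mul_top k
  exact h3 ⟨x, hx, rfl⟩

/-- homomorphisms congruent to the identity -/
def U1 (h : E F →ₐ[F] E F) : Prop := ∀ i, h (e i) - e i ∈ (Fil 2 : Submodule F (E F))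

include h2 in
lemma U1_Fil {h : E F →ₐ[F] E F} (hh : U1 h) (k : ℕ) {x : E F}
    (hx : x ∈ (Fil k : Submodule F (E F))) : h x - x ∈ (Fil (k+1) : Submodule F (E F)) := by
  have leib : ∀ a b, h (a * b) - a * b = (h a - a) * h b + a * (h b - b) := by
    intro a b; rw [map_mul]; noncomm_ring
  have h1 : ∀ i, h (e i) ∈ (Fil 1 : Submodule F (E F)) := by
    intro i
    have := Submodule.add_mem _ (Fil_anti (by norm_num : 1 ≤ 2) (hh i)) (e_mem_Fil i)
    simpa using this
  have hV : ∀ m, h (ι F m) - ι F m ∈ (Fil 2 : Submodule F (E F)) := by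
    intro m
    exact lin_ind (h := h.toLinearMap - LinearMap.id) (fun i => hh i) m
  have h0 : ∀ x : E F, h x - x ∈ (Fil 1 : Submodule F (E F)) := by
    intro x
    induction x using ExteriorAlgebra.induction with
    | algebraMap r => simp
    | ι m => exact Fil_anti (by norm_num) (hV m)
    | mul a b ha hb =>
      rw [leib]
      apply Submodule.add_mem
      · exact mul_mem_Fil h2 ha (mem_Fil_zero _) (by norm_num)
      · exact mul_mem_Fil h2 (mem_Fil_zero _) hb (by norm_num)
    | add a b ha hb =>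
      have : h (a + b) - (a + b) = (h a - a) + (h b - b) := by rw [map_add]; abel
      rw [this]; exact Submodule.add_mem _ ha hb
  have hpow : ∀ k : ℕ, ∀ x ∈ (VV ^ k : Submodule F (E F)), h x - x ∈ (Fil (k+1) : Submodule F (E F)) := by
    intro k
    induction k with
    | zero => intro x _; exact h0 x
    | succ k ih =>
      intro x hx
      rw [pow_succ] at hx
      induction hx using Submodule.mul_induction_on' with
      | mem_mul_mem a ha b hb =>
        rw [leib]
        obtain ⟨m, rfl⟩ := hb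
        apply Submodule.add_mem
        · exact mul_mem_Fil h2 (ih a ha) (hom_Fil h2 h1 1 (VV_le ⟨m, rfl⟩)) (by omega)
        · exact mul_mem_Fil h2 (VV_pow_le k ha) (hV m) (by omega)
      | add a _ b _ ha hb =>
        have : h (a + b) - (a + b) = (h a - a) + (h b - b) := by rw [map_add]; abel
        rw [this]; exact Submodule.add_mem _ ha hb
  rw [Fil] at hx
  induction hx using Submodule.mul_induction_on' with
  | mem_mul_mem a ha b hb =>
    rw [leib]
    apply Submodule.add_mem
    · exact mul_mem_Fil h2 (hpow k a ha) (mem_Fil_zero _) (by omega)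
    · exact mul_mem_Fil h2 (VV_pow_le k ha) (h0 b) (by omega)
  | add a _ b _ ha hb =>
    have : h (a + b) - (a + b) = (h a - a) + (h b - b) := by rw [map_add]; abel
    rw [this]; exact Submodule.add_mem _ ha hb

lemma Fil_decompose {k d : ℕ} (hd : d < k) {x : E F} (hx : x ∈ (Fil k : Submodule F (E F))) :
    (DirectSum.decompose (fun i : ℕ ↦ ⋀[F]^i (ℕ →₀ F)) x d : E F) = 0 := by
  rw [Fil] at hx
  induction hx using Submodule.mul_induction_on' with
  | mem_mul_mem a ha b hb =>
    exact DirectSum.coe_decompose_mul_of_left_mem_of_not_le (fun i : ℕ ↦ ⋀[F]^i (ℕ →₀ F)) ha (by omega)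
  | add a _ b _ ha hb =>
    rw [DirectSum.decompose_add, DirectSum.add_apply, Submodule.coe_add, ha, hb, add_zero]

/-- the filtration is separated on finitely generated submodules -/
lemma separated {W : Submodule F (E F)} (hW : W.FG) : ∃ D, ∀ x ∈ W, x ∈ (Fil D : Submodule F (E F)) → x = 0 := by
  classical
  have key : ∃ D, ∀ x ∈ W, ∀ d, D ≤ d →
      (DirectSum.decompose (fun i : ℕ ↦ ⋀[F]^i (ℕ →₀ F)) x d : E F) = 0 := by
    obtain ⟨s, rfl⟩ := hW
    have h1 : ∀ x : E F, ∃ D, ∀ d, D ≤ d →
        (DirectSum.decompose (fun i : ℕ ↦ ⋀[F]^i (ℕ →₀ F)) x d : E F) = 0 := by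
      intro x
      refine ⟨(DirectSum.decompose (fun i : ℕ ↦ ⋀[F]^i (ℕ →₀ F)) x).support.sup id + 1, ?_⟩
      intro d hd
      by_contra hne
      have : d ∈ (DirectSum.decompose (fun i : ℕ ↦ ⋀[F]^i (ℕ →₀ F)) x).support := by
        rw [DFinsupp.mem_support_iff]
        intro h; apply hne; rw [h]; rfl
      have := Finset.le_sup (f := id) this
      simp only [id] at this
      omega
    choose B hB using h1
    refine ⟨s.sup B, ?_⟩
    intro x hx d hd
    induction hx using Submodule.span_induction with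
    | mem x hx => exact hB x d ((Finset.le_sup hx).trans hd)
    | zero => simp
    | add a b _ _ ha hb => rw [DirectSum.decompose_add, DirectSum.add_apply, Submodule.coe_add, ha, hb, add_zero]
    | smul c a _ ha =>
      rw [DirectSum.decompose_smul, DirectSum.smul_apply, Submodule.coe_smul, ha, smul_zero]
  obtain ⟨D, hD⟩ := key
  refine ⟨D, fun x hx hxF => ?_⟩
  have : DirectSum.decompose (fun i : ℕ ↦ ⋀[F]^i (ℕ →₀ F)) x = 0 := by
    ext d
    rcases lt_or_ge d D with h | h
    · rw [Fil_decompose h hxF]; rfl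
    · rw [hD x hx d h]; rfl
  have h3 := congrArg (DirectSum.decompose (fun i : ℕ ↦ ⋀[F]^i (ℕ →₀ F))).symm this
  simpa using h3

lemma exists_aug (x : E F) : ∃ r : F, x - algebraMap F (E F) r ∈ (Fil 1 : Submodule F (E F)) := by
  induction x using ExteriorAlgebra.induction with
  | algebraMap r => exact ⟨r, by simp⟩
  | ι m => exact ⟨0, by simpa using VV_le ⟨m, rfl⟩⟩
  | mul a b ha hb =>
    obtain ⟨r, hr⟩ := ha
    obtain ⟨s, hs⟩ := hb
    refine ⟨r * s, ?_⟩
    have : a * b - algebraMap F (E F) (r * s) = (a - algebraMap F (E F) r) * b +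
        r • (b - algebraMap F (E F) s) := by
      rw [map_mul, Algebra.smul_def]; noncomm_ring
    rw [this]
    apply Submodule.add_mem
    · exact Fil_mul_top 1 (Submodule.mul_mem_mul hr Submodule.mem_top)
    · exact Submodule.smul_mem _ _ hs
  | add a b ha hb =>
    obtain ⟨r, hr⟩ := ha
    obtain ⟨s, hs⟩ := hb
    refine ⟨r + s, ?_⟩
    have : a + b - algebraMap F (E F) (r + s) = (a - algebraMap F (E F) r) +
        (b - algebraMap F (E F) s) := by
      rw [map_add]; abel
    rw [this]
    exact Submodule.add_mem _ hr hs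

include h2 in
lemma odd_mem_Fil {x : E F} (hx : tau x = -x) : x ∈ (Fil 1 : Submodule F (E F)) := by
  obtain ⟨r, hr⟩ := exists_aug x
  have h1 : tau (x - algebraMap F (E F) r) ∈ (Fil 1 : Submodule F (E F)) := by
    apply hom_Fil h2 (h := (tau : E F ≃ₐ[F] E F).toAlgHom) _ 1 hr
    intro i
    simp only [AlgEquiv.toAlgHom_apply, tau_e]
    exact Submodule.neg_mem _ (e_mem_Fil i)
  rw [map_sub, hx, AlgEquiv.commutes] at h1
  have h3 := Submodule.sub_mem _ hr h1
  have h4 : x - algebraMap F (E F) r - (-x - algebraMap F (E F) r) = (2:F) • x := by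
    rw [two_smul]; abel
  rw [h4] at h3
  have := Submodule.smul_mem _ (2:F)⁻¹ h3
  rwa [smul_smul, inv_mul_cancel₀ h2, one_smul] at this

/-- contraction with the coordinate `j` -/
def ctr (j : ℕ) : E F →ₗ[F] E F :=
  CliffordAlgebra.contractLeft (Q := (0 : QuadraticForm F (ℕ →₀ F))) (Finsupp.lapply j)

lemma ctr_ι_mul (j : ℕ) (m : ℕ →₀ F) (x : E F) :
    ctr j (ι F m * x) = m j • x - ι F m * ctr j x :=
  CliffordAlgebra.contractLeft_ι_mul (Q := (0 : QuadraticForm F (ℕ →₀ F))) (Finsupp.lapply j) m x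

lemma ctr_algebraMap (j : ℕ) (r : F) : ctr j (algebraMap F (E F) r) = 0 :=
  CliffordAlgebra.contractLeft_algebraMap (Q := (0 : QuadraticForm F (ℕ →₀ F))) (Finsupp.lapply j) r

lemma left_ind {P : E F → Prop} (h0 : ∀ r, P (algebraMap F (E F) r)) (h1 : ∀ x y, P x → P y → P (x + y))
    (h3 : ∀ x m, P x → P (ι F m * x)) : ∀ x, P x := fun x =>
  CliffordAlgebra.left_induction (Q := (0 : QuadraticForm F (ℕ →₀ F))) h0 h1 (fun x m hx => h3 x m hx) x

lemma ctr_pr (j : ℕ) (x : E F) : ctr j (pr h2 j x) = 0 := by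
  induction x using left_ind with
  | h0 r => rw [AlgHom.commutes, ctr_algebraMap]
  | h1 x y hx hy => rw [map_add, map_add, hx, hy, add_zero]
  | h3 x m hx =>
    rw [map_mul]
    have key : ∀ m : ℕ →₀ F, ∀ y : E F, ctr j y = 0 → ctr j (pr h2 j (ι F m) * y) = 0 := by
      intro m y hy
      induction m using Finsupp.induction_linear with
      | zero => simp
      | add a b ha hb => rw [map_add, map_add, add_mul, map_add, ha, hb, add_zero]
      | single i c =>
        have : (Finsupp.single i c : ℕ →₀ F) = c • Finsupp.single i 1 := by simp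
        rw [this, map_smul, map_smul, smul_mul_assoc, map_smul]
        have h : ctr j (pr h2 j (e i) * y) = 0 := by
          rcases lt_or_ge i j with h | h
          · rw [pr_e_lt h2 h]
            unfold e
            rw [ctr_ι_mul, hy, mul_zero, sub_zero]
            rw [Finsupp.single_apply, if_neg (by omega), zero_smul]
          · rw [pr_e_ge h2 h]; simp
        change c • ctr j (pr h2 j (e i) * y) = 0
        rw [h, smul_zero]
    exact key m _ hx

include h2 in
/-- the centre of the Grassmann algebra is its even part -/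
lemma even_of_central {x : E F} (hx : ∀ y, x * y = y * x) : tau x = x := by
  set z := x - tau x with hz
  have hzodd : tau z = - z := by rw [hz, map_sub, tau_tau]; abel
  have hz0 : ∀ j, z * e j = 0 := by
    intro j
    have h1 : x * e j = tau x * e j := by
      rw [hx, odd_mul h2 (tau_e j)]
    rw [hz, sub_mul, h1, sub_self]
  obtain ⟨j, hj⟩ := exists_pr h2 z
  have h3 : e j * z = 0 := by
    rw [odd_mul h2 (tau_e j), hzodd, neg_mul, hz0, neg_zero]
  have h4 : ctr j z = 0 := by rw [← hj]; exact ctr_pr h2 j z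
  have h5 : ctr j (e j * z) = z := by
    unfold e
    rw [ctr_ι_mul, h4, mul_zero, sub_zero]
    simp
  rw [h3, map_zero] at h5
  rw [← h5] at hz
  exact (sub_eq_zero.mp hz.symm).symm

end char

end Pool.Agent.H89R3.Gr
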