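import Mathlib
import Pool.Agent.H89R3.Fil

/-!
# Local unipotence of endomorphisms congruent to the identity modulo a small ideal
-/

set_option autoImplicit false

open ExteriorAlgebra

noncomputable section

namespace Pool.Agent.H89R3.Gr

variable {F : Type*} [Field F] (h2 : (2:F) ≠ 0)

lemma fg_le_Sub {P : Submodule F (E F)} (hP : P.FG) : ∃ M, P ≤ Sub h2 M := by
  obtain ⟨s, rfl⟩ := hP
  have h1 : ∀ x : E F, ∃ M, x ∈ Sub h2 M := fun x => by
    obtain ⟨N, hN⟩ := exists_pr h2 x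
    exact ⟨N, (mem_Sub h2).mpr hN⟩
  choose M hM using h1
  refine ⟨s.sup M, ?_⟩
  rw [Submodule.span_le]
  intro x hx
  exact Sub_mono h2 (Finset.le_sup hx) (hM x)

lemma fg_le_mul {P Y : Submodule F (E F)} (hP : P.FG) (hPY : P ≤ ⊤ * Y) :
    ∃ M, P ≤ Sub h2 M * Y := by
  obtain ⟨s, rfl⟩ := hP
  have h1 : ∀ x : E F, ∃ M, x ∈ ⊤ * Y → x ∈ Sub h2 M * Y := by
    intro x
    by_cases hx : x ∈ ⊤ * Y
    · suffices h : ∃ M, x ∈ Sub h2 M * Y by
        obtain ⟨M, hM⟩ := h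
        exact ⟨M, fun _ => hM⟩
      induction hx using Submodule.mul_induction_on' with
      | mem_mul_mem a ha b hb =>
        obtain ⟨N, hN⟩ := exists_pr h2 a
        exact ⟨N, Submodule.mul_mem_mul ((mem_Sub h2).mpr hN) hb⟩
      | add a _ b _ ha hb =>
        obtain ⟨M, hM⟩ := ha
        obtain ⟨M', hM'⟩ := hb
        refine ⟨max M M', Submodule.add_mem _ ?_ ?_⟩
        · exact mul_le_mul' (Sub_mono h2 (le_max_left _ _)) le_rfl hM
        · exact mul_le_mul' (Sub_mono h2 (le_max_right _ _)) le_rfl hM'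
    · exact ⟨0, fun h => absurd h hx⟩
  choose M hM using h1
  refine ⟨s.sup M, ?_⟩
  rw [Submodule.span_le]
  intro x hx
  exact mul_le_mul' (Sub_mono h2 (Finset.le_sup hx)) le_rfl (hM x (hPY (Submodule.subset_span hx)))

lemma Y_mul_Sub {Y : Submodule F (E F)} (hY : ∀ y ∈ Y, tau y = -y) (M : ℕ) :
    Y * Sub h2 M ≤ Sub h2 M * Y := by
  rw [Submodule.mul_le]
  intro y hy b hb
  rw [odd_mul h2 (hY y hy)]
  exact Submodule.mul_mem_mul (tau_mem_Sub h2 hb) hy

include h2 in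
lemma Y_mul_top {Y : Submodule F (E F)} (hY : ∀ y ∈ Y, tau y = -y) :
    Y * ⊤ ≤ ⊤ * Y := by
  rw [Submodule.mul_le]
  intro y hy b _
  rw [odd_mul h2 (hY y hy)]
  exact Submodule.mul_mem_mul trivial hy

lemma Ypow_mul_Sub {Y : Submodule F (E F)} (hY : ∀ y ∈ Y, tau y = -y) (M k : ℕ) :
    Y ^ k * Sub h2 M ≤ Sub h2 M * Y ^ k := by
  induction k with
  | zero => simp
  | succ k ih =>
    calc Y ^ (k+1) * Sub h2 M = Y ^ k * (Y * Sub h2 M) := by rw [pow_succ, mul_assoc]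
      _ ≤ Y ^ k * (Sub h2 M * Y) := mul_le_mul' le_rfl (Y_mul_Sub h2 hY M)
      _ = (Y ^ k * Sub h2 M) * Y := by rw [mul_assoc]
      _ ≤ (Sub h2 M * Y ^ k) * Y := mul_le_mul' ih le_rfl
      _ = Sub h2 M * Y ^ (k+1) := by rw [pow_succ, mul_assoc]

lemma SubY_pow {Y : Submodule F (E F)} (hY : ∀ y ∈ Y, tau y = -y) (M k : ℕ) :
    (Sub h2 M * Y) ^ k ≤ Sub h2 M * Y ^ k := by
  induction k with
  | zero =>
    simp only [pow_zero, mul_one]
    rw [Submodule.one_le]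
    exact one_mem_Sub h2 M
  | succ k ih =>
    calc (Sub h2 M * Y) ^ (k+1) = (Sub h2 M * Y) ^ k * (Sub h2 M * Y) := by rw [pow_succ]
      _ ≤ (Sub h2 M * Y ^ k) * (Sub h2 M * Y) := mul_le_mul' ih le_rfl
      _ = Sub h2 M * (Y ^ k * Sub h2 M) * Y := by simp only [mul_assoc]
      _ ≤ Sub h2 M * (Sub h2 M * Y ^ k) * Y :=
        mul_le_mul' (mul_le_mul' le_rfl (Ypow_mul_Sub h2 hY M k)) le_rfl
      _ = (Sub h2 M * Sub h2 M) * (Y ^ k * Y) := by simp only [mul_assoc]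
      _ ≤ Sub h2 M * (Y ^ k * Y) := mul_le_mul' (Sub_mul h2 M) le_rfl
      _ = Sub h2 M * Y ^ (k+1) := by rw [pow_succ]

lemma Sub_Sub {M N : ℕ} (h : N ≤ M) : Sub h2 M * Sub h2 N ≤ Sub h2 M :=
  (mul_le_mul' le_rfl (Sub_mono h2 h)).trans (Sub_mul h2 M)

lemma Sub_pow (M k : ℕ) : (Sub h2 M) ^ k ≤ Sub h2 M := by
  induction k with
  | zero => rw [pow_zero, Submodule.one_le]; exact one_mem_Sub h2 M
  | succ k ih =>
    rw [pow_succ]
    exact (mul_le_mul' ih le_rfl).trans (Sub_mul h2 M)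

include h2 in
theorem LF {Y : Submodule F (E F)} (hYfg : Y.FG) (hY : ∀ y ∈ Y, tau y = -y) {h : E F →ₐ[F] E F}
    (hI : ∀ x, h x - x ∈ ⊤ * Y) (hU : U1 h) : LN (h.toLinearMap - 1) := by
  intro a
  -- Y is contained in some Sub and is nilpotent
  obtain ⟨M0, hM0⟩ := fg_le_Sub h2 hYfg
  obtain ⟨D, hD⟩ := separated (Sub_fg h2 M0 (F := F))
  have hY1 : Y ≤ Fil 1 := fun y hy => odd_mem_Fil h2 (hY y hy)
  have hYpow : ∀ k, D ≤ k → Y ^ k ≤ ⊥ := by
    intro k hk x hx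
    have h1 : x ∈ Sub h2 M0 := (pow_le_pow_left' hM0 k |>.trans (Sub_pow h2 M0 k)) hx
    have h3 : x ∈ (Fil k : Submodule F (E F)) :=
      (pow_le_pow_left' hY1 k |>.trans (Fil_one_pow h2 k)) hx
    rw [Submodule.mem_bot]
    exact hD x h1 (Fil_anti hk h3)
  -- images of `Sub`
  have hg : ∀ M, ∃ M', (Sub h2 M).map (h.toLinearMap - 1) ≤ Sub h2 M' * Y := by
    intro M
    apply fg_le_mul h2 ((Sub_fg h2 M).map _)
    rintro _ ⟨x, _, rfl⟩
    exact hI x
  choose g hg using hg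
  have hYh : ∃ M', Y.map h.toLinearMap ≤ Sub h2 M' * Y := by
    apply fg_le_mul h2 (hYfg.map _)
    rintro _ ⟨x, hx, rfl⟩
    have h1 : h x = (h x - x) + 1 * x := by rw [one_mul]; abel
    change h x ∈ _
    rw [h1]
    exact Submodule.add_mem _ (hI x) (Submodule.mul_mem_mul trivial hx)
  obtain ⟨M1, hM1⟩ := hYh
  obtain ⟨M2, hM2⟩ := exists_pr h2 a
  let N : ℕ → ℕ := fun k => Nat.rec (max M1 M2) (fun _ n => max n (g n)) k
  have hN0 : N 0 = max M1 M2 := rfl
  have hNs : ∀ k, N (k+1) = max (N k) (g (N k)) := fun k => rfl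
  have hNmono : Monotone N := monotone_nat_of_le_succ (fun k => by rw [hNs]; exact le_max_left _ _)
  have hstep : ∀ k, (Sub h2 (N k)).map h.toLinearMap ≤ Sub h2 (N k) ⊔ Sub h2 (N (k+1)) * Y := by
    rintro k _ ⟨x, hx, rfl⟩
    have h1 : h x = x + (h x - x) := by abel
    change h x ∈ _
    rw [h1]
    apply Submodule.add_mem_sup hx
    have h3 := hg (N k) ⟨x, hx, rfl⟩
    exact mul_le_mul' (Sub_mono h2 (by rw [hNs]; exact le_max_right _ _)) le_rfl h3
  have hYh' : Y.map h.toLinearMap ≤ Sub h2 (N 0) * Y :=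
    hM1.trans (mul_le_mul' (Sub_mono h2 (by rw [hN0]; exact le_max_left _ _)) le_rfl)
  set W : Submodule F (E F) := ⨆ k, Sub h2 (N k) * Y ^ k with hW
  have hWh : ∀ x ∈ W, h x ∈ W := by
    have : W.map h.toLinearMap ≤ W := by
      rw [hW, Submodule.map_iSup]
      apply iSup_le
      intro k
      calc (Sub h2 (N k) * Y ^ k).map h.toLinearMap
          = (Sub h2 (N k)).map h.toLinearMap * (Y.map h.toLinearMap) ^ k := by
            rw [Submodule.map_mul, Submodule.map_pow]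
        _ ≤ (Sub h2 (N k) ⊔ Sub h2 (N (k+1)) * Y) * (Sub h2 (N 0) * Y) ^ k :=
            mul_le_mul' (hstep k) (pow_le_pow_left' hYh' k)
        _ ≤ (Sub h2 (N k) ⊔ Sub h2 (N (k+1)) * Y) * (Sub h2 (N 0) * Y ^ k) :=
            mul_le_mul' le_rfl (SubY_pow h2 hY _ _)
        _ = (Sub h2 (N k) * Sub h2 (N 0)) * Y ^ k ⊔
              Sub h2 (N (k+1)) * (Y * Sub h2 (N 0)) * Y ^ k := by
            rw [Submodule.sup_mul]; simp only [mul_assoc]
        _ ≤ Sub h2 (N k) * Y ^ k ⊔ Sub h2 (N (k+1)) * (Sub h2 (N 0) * Y) * Y ^ k := by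
            apply sup_le_sup
            · exact mul_le_mul' (Sub_Sub h2 (hNmono (Nat.zero_le k))) le_rfl
            · exact mul_le_mul' (mul_le_mul' le_rfl (Y_mul_Sub h2 hY _)) le_rfl
        _ = Sub h2 (N k) * Y ^ k ⊔ (Sub h2 (N (k+1)) * Sub h2 (N 0)) * Y ^ (k+1) := by
            rw [pow_succ' Y k]; simp only [mul_assoc]
        _ ≤ Sub h2 (N k) * Y ^ k ⊔ Sub h2 (N (k+1)) * Y ^ (k+1) := by
            apply sup_le_sup le_rfl
            exact mul_le_mul' (Sub_Sub h2 (hNmono (Nat.zero_le (k+1)))) le_rfl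
        _ ≤ ⨆ k, Sub h2 (N k) * Y ^ k := by
            apply sup_le
            · exact le_iSup (fun k => Sub h2 (N k) * Y ^ k) k
            · exact le_iSup (fun k => Sub h2 (N k) * Y ^ k) (k+1)
    intro x hx
    exact this ⟨x, hx, rfl⟩
  have hWle : W ≤ Sub h2 (max (N D) M0) := by
    rw [hW]
    apply iSup_le
    intro k
    rcases le_or_gt D k with hk | hk
    · calc Sub h2 (N k) * Y ^ k ≤ Sub h2 (N k) * ⊥ := mul_le_mul' le_rfl (hYpow k hk)
        _ = ⊥ := by simp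
        _ ≤ _ := bot_le
    · calc Sub h2 (N k) * Y ^ k ≤ Sub h2 (max (N D) M0) * Sub h2 (max (N D) M0) := by
            apply mul_le_mul'
            · exact Sub_mono h2 ((hNmono hk.le).trans (le_max_left _ _))
            · exact ((pow_le_pow_left' hM0 k).trans (Sub_pow h2 M0 k)).trans
                (Sub_mono h2 (le_max_right _ _))
        _ ≤ _ := Sub_mul h2 _
  obtain ⟨D', hD'⟩ := separated (Sub_fg h2 (max (N D) M0) (F := F))
  have haW : a ∈ W := by
    have h1 : a ∈ Sub h2 (N 0) * Y ^ 0 := by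
      rw [pow_zero, mul_one]
      exact Sub_mono h2 (by rw [hN0]; exact le_max_right _ _) ((mem_Sub h2).mpr hM2)
    exact (le_iSup (fun k => Sub h2 (N k) * Y ^ k) 0) h1
  have key : ∀ j : ℕ, ((h.toLinearMap - 1) ^ j) a ∈ W ∧
      ((h.toLinearMap - 1) ^ j) a ∈ (Fil j : Submodule F (E F)) := by
    intro j
    induction j with
    | zero => exact ⟨by simpa using haW, mem_Fil_zero _⟩
    | succ j ih =>
      rw [pow_succ', Module.End.mul_apply]
      constructor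
      · exact W.sub_mem (hWh _ ih.1) ih.1
      · exact U1_Fil h2 hU j ih.2
  exact ⟨D', hD' _ (hWle (key D').1) (key D').2⟩

end Pool.Agent.H89R3.Gr
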