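import Mathlib
import Pool.Agent.H89R3.LF

/-!
# The main lemma: moving an involution so that it preserves a finite free factor
-/

set_option autoImplicit false

open ExteriorAlgebra

noncomputable section

namespace Pool.Agent.H89R3.Gr

variable {F : Type*} [Field F] (h2 : (2:F) ≠ 0)

/-- two homomorphisms agreeing on generators modulo a two-sided ideal agree modulo it -/
lemma diff_ideal {f g : E F →ₐ[F] E F} {I : Submodule F (E F)} (h1 : ⊤ * I ≤ I) (h3 : I * ⊤ ≤ I)
    (h : ∀ i, f (e i) - g (e i) ∈ I) (x : E F) : f x - g x ∈ I := by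
  induction x using ExteriorAlgebra.induction with
  | algebraMap r => simp
  | ι m => exact lin_ind (h := f.toLinearMap - g.toLinearMap) h m
  | mul a b ha hb =>
    have : f (a * b) - g (a * b) = (f a - g a) * f b + g a * (f b - g b) := by
      rw [map_mul, map_mul]; noncomm_ring
    rw [this]
    apply I.add_mem
    · exact h3 (Submodule.mul_mem_mul ha trivial)
    · exact h1 (Submodule.mul_mem_mul trivial hb)
  | add a b ha hb =>
    have : f (a + b) - g (a + b) = (f a - g a) + (f b - g b) := by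
      rw [map_add, map_add]; abel
    rw [this]; exact I.add_mem ha hb

include h2 in
lemma top_mul_Fil (k : ℕ) : (⊤ * Fil k : Submodule F (E F)) ≤ Fil k := by
  have := Fil_mul h2 0 k (F := F)
  rwa [Fil_zero, zero_add] at this

include h2 in
lemma diff_Fil {f g : E F →ₐ[F] E F} {k : ℕ} (h : ∀ i, f (e i) - g (e i) ∈ (Fil k : Submodule F (E F))) (x : E F) :
    f x - g x ∈ (Fil k : Submodule F (E F)) :=
  diff_ideal (top_mul_Fil h2 k) (Fil_mul_top k) h x

lemma tau_odd_of_comm {γ : E F ≃ₐ[F] E F} (h : γ * tau = tau * γ) (i : ℕ) :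
    tau (γ (e i)) = - γ (e i) := by
  have := congrArg (fun l : E F ≃ₐ[F] E F => l (e i)) h
  simp only [AlgEquiv.mul_apply, tau_e, map_neg] at this
  exact this.symm

lemma comm_apply {γ : E F ≃ₐ[F] E F} (h : γ * tau = tau * γ) (x : E F) :
    tau (γ x) = γ (tau x) := by
  have := congrArg (fun l : E F ≃ₐ[F] E F => l x) h
  simpa using this.symm

include h2 in
lemma comm_Fil {γ : E F ≃ₐ[F] E F} (h : γ * tau = tau * γ) (k : ℕ) {x : E F}
    (hx : x ∈ (Fil k : Submodule F (E F))) : γ x ∈ (Fil k : Submodule F (E F)) :=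
  hom_Fil h2 (h := γ.toAlgHom) (fun i => odd_mem_Fil h2 (tau_odd_of_comm h i)) k hx

/-- Hypotheses on an involution: it commutes with the parity and has diagonal linear part. -/
structure Good (ε : ℕ → F) (φ : E F ≃ₐ[F] E F) : Prop where
  sq : φ * φ = 1
  comm : φ * tau = tau * φ
  lin : ∀ i, φ (e i) - ε i • e i ∈ (Fil 2 : Submodule F (E F))

lemma mul_apply' (f g : E F ≃ₐ[F] E F) (x : E F) : (f * g) x = f (g x) := rfl

lemma grp1 {G : Type*} [Group G] {a b : G} (h1 : b * b * (a * a) = 1) (h : a * b = b * a) :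
    (a * b) * (a * b) = 1 := by
  calc (a * b) * (a * b) = (b * a) * (b * a) := by rw [h]
    _ = b * (a * b) * a := by group
    _ = b * (b * a) * a := by rw [h]
    _ = b * b * (a * a) := by group
    _ = 1 := h1

lemma grp2 {G : Type*} [Group G] {a b t : G} (ha : a * t = t * a) (hb : b * t = t * b) :
    t * (a * b) = (a * b) * t := by
  calc t * (a * b) = (t * a) * b := by group
    _ = (a * t) * b := by rw [ha]
    _ = a * (t * b) := by group
    _ = a * (b * t) := by rw [hb]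
    _ = (a * b) * t := by group

theorem main_lemma {ε : ℕ → F} {φ : E F ≃ₐ[F] E F} (hφ : Good ε φ) (N : ℕ) :
    ∃ γ : E F ≃ₐ[F] E F, γ * tau = tau * γ ∧ (∀ x, γ x - x ∈ (Fil 2 : Submodule F (E F))) ∧
      (∀ x ∈ Sub h2 N, γ⁻¹ (φ (γ x)) ∈ Sub h2 N) ∧
      (∀ x ∈ Sub h2 N, φ x ∈ Sub h2 N → γ x = x) := by
  classical
  have hφφ : ∀ x, φ (φ x) = x := fun x => by
    have := congrArg (fun l : E F ≃ₐ[F] E F => l x) hφ.sq
    simpa using this
  have hφodd : ∀ i, tau (φ (e i)) = - φ (e i) := tau_odd_of_comm hφ.comm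
  -- the approximation
  set f : ℕ → E F := fun i => if i < N then pr h2 N (φ (e i)) else φ (e i) with hf
  have hfodd : ∀ i, tau (f i) = - f i := by
    intro i
    simp only [hf]
    split_ifs with h
    · rw [pr_tau, hφodd, map_neg]
    · exact hφodd i
  set φ1 : E F →ₐ[F] E F := L h2 f hfodd with hφ1
  have hφ1e : ∀ i, φ1 (e i) = f i := fun i => by rw [hφ1, L_e]
  have hφ1pr : ∀ x ∈ Sub h2 N, φ1 x = pr h2 N (φ x) := by
    intro x hx
    have : φ1.comp (pr h2 N) = ((pr h2 N).comp (φ : E F →ₐ[F] E F)).comp (pr h2 N) := by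
      apply hom_ext'
      intro i
      simp only [AlgHom.comp_apply]
      rcases lt_or_ge i N with h | h
      · rw [pr_e_lt h2 h, hφ1e, hf]; simp [h]
      · rw [pr_e_ge h2 h]; simp
    have h3 := congrArg (fun l : E F →ₐ[F] E F => l x) this
    simp only [AlgHom.comp_apply] at h3
    rwa [(mem_Sub h2).mp hx] at h3
  -- the ideal
  set Y0 : Submodule F (E F) := Submodule.span F ((fun i => φ (e i) - pr h2 N (φ (e i))) '' Set.Iio N) with hY0
  set Y : Submodule F (E F) := Y0 ⊔ Y0.map φ.toLinearMap with hYdef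
  have hY0fg : Y0.FG := Submodule.fg_span ((Set.finite_Iio N).image _)
  have hYfg : Y.FG := hY0fg.sup (hY0fg.map _)
  have hY0odd : ∀ y ∈ Y0, tau y = -y := by
    intro y hy
    induction hy using Submodule.span_induction with
    | mem x hx =>
      obtain ⟨i, _, rfl⟩ := hx
      simp only [map_sub, pr_tau, hφodd, map_neg]; abel
    | zero => simp
    | add a b _ _ ha hb => rw [map_add, ha, hb]; abel
    | smul c a _ ha => rw [map_smul, ha, smul_neg]
  have hYodd : ∀ y ∈ Y, tau y = -y := by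
    intro y hy
    obtain ⟨a, ha, b, hb, rfl⟩ := Submodule.mem_sup.mp hy
    obtain ⟨c, hc, rfl⟩ := hb
    have h1 : tau (φ c) = - φ c := by rw [comm_apply hφ.comm, hY0odd c hc, map_neg]
    rw [map_add, hY0odd a ha]
    change -a + tau (φ c) = -(a + φ c)
    rw [h1]; abel
  have hYφ : ∀ y ∈ Y, φ y ∈ Y := by
    intro y hy
    obtain ⟨a, ha, b, hb, rfl⟩ := Submodule.mem_sup.mp hy
    obtain ⟨c, hc, rfl⟩ := hb
    rw [map_add, add_comm]
    apply Submodule.add_mem_sup
    · change φ (φ c) ∈ Y0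
      rwa [hφφ]
    · exact ⟨a, ha, rfl⟩
  set I : Submodule F (E F) := ⊤ * Y with hI
  have hI1 : ⊤ * I ≤ I := by rw [hI, ← mul_assoc, top_mul_top]
  have hI3 : I * ⊤ ≤ I := by
    calc I * ⊤ = ⊤ * (Y * ⊤) := by rw [hI, mul_assoc]
      _ ≤ ⊤ * (⊤ * Y) := mul_le_mul' le_rfl (Y_mul_top h2 hYodd)
      _ = I := by rw [← mul_assoc, top_mul_top]
  have hYI : Y ≤ I := fun y hy => by
    have := Submodule.mul_mem_mul (Submodule.mem_top (x := (1 : E F)) (R := F)) hy
    simpa [hI] using this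
  have hIφ : ∀ x ∈ I, φ x ∈ I := by
    intro x hx
    rw [hI] at hx
    induction hx using Submodule.mul_induction_on' with
    | mem_mul_mem a _ b hb => rw [map_mul]; exact Submodule.mul_mem_mul trivial (hYφ b hb)
    | add a _ b _ ha hb => rw [map_add]; exact I.add_mem ha hb
  -- `φ1` versus `φ`
  have hA : ∀ x, φ1 x - φ x ∈ I := by
    intro x
    apply diff_ideal (f := φ1) (g := (φ : E F →ₐ[F] E F)) hI1 hI3
    intro i
    change φ1 (e i) - φ (e i) ∈ I
    rw [hφ1e, hf]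
    simp only
    split_ifs with h
    · apply hYI
      apply Submodule.mem_sup_left
      have h1 : φ (e i) - pr h2 N (φ (e i)) ∈ Y0 := Submodule.subset_span ⟨i, h, rfl⟩
      have := Y0.neg_mem h1
      simpa using this
    · simp
  have hB : ∀ x ∈ I, φ1 x ∈ I := by
    intro x hx
    have := I.add_mem (hA x) (hIφ x hx)
    simpa using this
  have hprFil : ∀ (k : ℕ) (x : E F), x ∈ (Fil k : Submodule F (E F)) → pr h2 N x ∈ (Fil k : Submodule F (E F)) := by
    intro k x hx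
    apply hom_Fil h2 _ k hx
    intro i
    rcases lt_or_ge i N with h | h
    · rw [pr_e_lt h2 h]; exact e_mem_Fil i
    · rw [pr_e_ge h2 h]; exact Submodule.zero_mem _
  have hφ1odd : ∀ i, tau (φ1 (e i)) = - φ1 (e i) := fun i => by rw [hφ1e]; exact hfodd i
  have hφ1Fil : ∀ (k : ℕ) (x : E F), x ∈ (Fil k : Submodule F (E F)) → φ1 x ∈ (Fil k : Submodule F (E F)) := by
    intro k x hx
    exact hom_Fil h2 (fun i => odd_mem_Fil h2 (hφ1odd i)) k hx
  have hφ1lin : ∀ i, φ1 (e i) - ε i • e i ∈ (Fil 2 : Submodule F (E F)) := by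
    intro i
    rw [hφ1e, hf]
    simp only
    split_ifs with h
    · have := hprFil 2 _ (hφ.lin i)
      rwa [map_sub, map_smul, pr_e_lt h2 h] at this
    · exact hφ.lin i
  have hA2 : ∀ x, φ1 x - φ x ∈ (Fil 2 : Submodule F (E F)) := by
    intro x
    apply diff_Fil h2 (f := φ1) (g := (φ : E F →ₐ[F] E F))
    intro i
    have := Submodule.sub_mem _ (hφ1lin i) (hφ.lin i)
    simpa using this
  -- `s = φ1 ∘ φ1`
  set s0 : E F →ₐ[F] E F := φ1.comp φ1 with hs0
  have hs0I : ∀ x, s0 x - x ∈ I := by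
    intro x
    have h1 : s0 x - x = (φ1 (φ1 x) - φ (φ1 x)) + φ (φ1 x - φ x) := by
      rw [map_sub, hφφ]; simp [hs0]
    rw [h1]
    exact I.add_mem (hA _) (hIφ _ (hA x))
  have hs0F : ∀ x, s0 x - x ∈ (Fil 2 : Submodule F (E F)) := by
    intro x
    have h1 : s0 x - x = (φ1 (φ1 x) - φ (φ1 x)) + φ (φ1 x - φ x) := by
      rw [map_sub, hφφ]; simp [hs0]
    rw [h1]
    exact Submodule.add_mem _ (hA2 _) (comm_Fil h2 hφ.comm 2 (hA2 x))
  have hs0LN : LN (s0.toLinearMap - 1) := LF h2 hYfg hYodd hs0I (fun i => hs0F _)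
  have hs0bij : Function.Bijective s0 := by
    have h1 := bij_of_LN h2 hs0LN
    have h3 : (1 + (s0.toLinearMap - 1) : Module.End F (E F)) = s0.toLinearMap := by abel
    rw [h3] at h1
    exact h1
  have hφ1bij : Function.Bijective φ1 := by
    have h1 : Function.Bijective (φ1 ∘ φ1) := hs0bij
    exact ⟨h1.1.of_comp, h1.2.of_comp⟩
  set Φ : E F ≃ₐ[F] E F := AlgEquiv.ofBijective φ1 hφ1bij with hΦ
  have hΦa : ∀ x, Φ x = φ1 x := fun x => rfl
  have hΦτ : Φ * tau = tau * Φ := by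
    ext x
    exact (comm_tau hφ1odd x).symm
  have hs : Un (Φ * Φ) := hs0LN
  obtain ⟨ρ, hρ, hρun, hρc, hρS⟩ := exists_root h2 hs
  have hρΦ : Φ * ρ = ρ * Φ := hρc Φ (by rw [mul_assoc])
  have hρτ : tau * ρ = ρ * tau := hρc tau (by
    rw [mul_assoc, hΦτ, ← mul_assoc Φ tau, hΦτ, mul_assoc])
  have hρI : ∀ x, ρ x - x ∈ I := root_all hρS (fun x => hs0I x)
  have hρF : ∀ x, ρ x - x ∈ (Fil 2 : Submodule F (E F)) := root_all hρS (fun x => hs0F x)
  -- the new involution
  set ψ : E F ≃ₐ[F] E F := Φ * ρ with hψ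
  have hψψ : ψ * ψ = 1 := grp1 hρ hρΦ
  have hψφI : ∀ x, ψ x - φ x ∈ I := by
    intro x
    have h1 : ψ x - φ x = φ1 (ρ x - x) + (φ1 x - φ x) := by
      rw [hψ, mul_apply', hΦa, map_sub]; abel
    rw [h1]
    exact I.add_mem (hB _ (hρI x)) (hA x)
  have hψφF : ∀ x, ψ x - φ x ∈ (Fil 2 : Submodule F (E F)) := by
    intro x
    have h1 : ψ x - φ x = φ1 (ρ x - x) + (φ1 x - φ x) := by
      rw [hψ, mul_apply', hΦa, map_sub]; abel
    rw [h1]
    exact Submodule.add_mem _ (hφ1Fil 2 _ (hρF x)) (hA2 x)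
  have hψτ : ψ * tau = tau * ψ := by
    rw [hψ, mul_assoc, ← hρτ, ← mul_assoc, hΦτ, mul_assoc]
  have hψN : ∀ x ∈ Sub h2 N, ψ x ∈ Sub h2 N := by
    intro x hx
    have h1 : ρ x ∈ Sub h2 N := by
      apply root_stable hρS _ x hx
      intro y hy
      change φ1 (φ1 y) ∈ _
      have h3 : φ1 y ∈ Sub h2 N := by rw [hφ1pr y hy]; exact pr_mem_Sub h2 N _
      rw [hφ1pr _ h3]; exact pr_mem_Sub h2 N _
    rw [hψ, mul_apply', hΦa, hφ1pr _ h1]
    exact pr_mem_Sub h2 N _
  have hψX : ∀ x ∈ Sub h2 N, φ x ∈ Sub h2 N → ψ x = φ x := by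
    intro x hx hφx
    have h1 : φ1 x = φ x := by rw [hφ1pr x hx, (mem_Sub h2).mp hφx]
    have h3 : φ1 (φ x) = x := by rw [hφ1pr _ hφx, hφφ, (mem_Sub h2).mp hx]
    have h4 : (Φ * Φ) x = x := by rw [mul_apply', hΦa, hΦa, h1, h3]
    have h5 : ρ x = x := root_fix hρS h4
    rw [hψ, mul_apply', hΦa, h5, h1]
  -- the product
  set v : E F ≃ₐ[F] E F := ψ * φ with hv
  have hvI : ∀ x, v x - x ∈ I := by
    intro x
    have := hψφI (φ x)
    rwa [hφφ] at this
  have hvF : ∀ x, v x - x ∈ (Fil 2 : Submodule F (E F)) := by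
    intro x
    have := hψφF (φ x)
    rwa [hφφ] at this
  have hvun : Un v := LF h2 hYfg hYodd (h := (v : E F →ₐ[F] E F)) hvI (fun i => hvF _)
  obtain ⟨γ, hγ, hγun, hγc, hγS⟩ := exists_root h2 hvun
  have hconj : φ * γ = γ * ψ := conj_root h2 hφ.sq hψψ hγ hγun hγc
  refine ⟨γ, ?_, root_all hγS hvF, ?_, ?_⟩
  · exact (hγc tau (grp2 hψτ hφ.comm)).symm
  · intro x hx
    have h1 : γ⁻¹ (φ (γ x)) = (γ⁻¹ * (φ * γ)) x := rfl
    rw [h1, hconj, ← mul_assoc, inv_mul_cancel, one_mul]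
    exact hψN x hx
  · intro x hx hφx
    apply root_fix hγS
    rw [hv, mul_apply', hψX (φ x) hφx (by rw [hφφ]; exact hx), hφφ]

end Pool.Agent.H89R3.Gr
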