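import Mathlib
import Pool.Agent.H89R3.Main

/-!
# Back and forth: an involution commuting with the parity and with diagonal linear part is
conjugate to its linear part
-/

set_option autoImplicit false

open ExteriorAlgebra

noncomputable section

namespace Pool.Agent.H89R3.Gr

variable {F : Type*} [Field F] (h2 : (2:F) ≠ 0)

lemma inv_apply' (γ : E F ≃ₐ[F] E F) (x : E F) : γ⁻¹ (γ x) = x := by
  rw [← mul_apply', inv_mul_cancel]; rfl

lemma apply_inv' (γ : E F ≃ₐ[F] E F) (x : E F) : γ (γ⁻¹ x) = x := by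
  rw [← mul_apply', mul_inv_cancel]; rfl

/-- the state of the construction -/
structure St (φ : E F ≃ₐ[F] E F) (γ : E F ≃ₐ[F] E F) (N : ℕ) : Prop where
  comm : γ * tau = tau * γ
  fil : ∀ x, γ x - x ∈ (Fil 2 : Submodule F (E F))
  stab : ∀ x ∈ Sub h2 N, γ⁻¹ (φ (γ x)) ∈ Sub h2 N

include h2 in
lemma inv_fil {γ : E F ≃ₐ[F] E F} (hc : γ * tau = tau * γ)
    (h : ∀ x, γ x - x ∈ (Fil 2 : Submodule F (E F))) (x : E F) :
    γ⁻¹ x - x ∈ (Fil 2 : Submodule F (E F)) := by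
  have hc' : γ⁻¹ * tau = tau * γ⁻¹ := by
    have : Commute γ tau := hc
    exact this.inv_left
  have h1 : γ⁻¹ x - x = - γ⁻¹ (γ x - x) := by
    rw [map_sub, inv_apply']; abel
  rw [h1]
  exact Submodule.neg_mem _ (comm_Fil h2 hc' 2 (h x))

lemma step {ε : ℕ → F} {φ : E F ≃ₐ[F] E F} (hφ : Good ε φ) {γ : E F ≃ₐ[F] E F} {N : ℕ}
    (hγ : St h2 φ γ N) (k : ℕ) :
    ∃ (γ' : E F ≃ₐ[F] E F) (N' : ℕ), St h2 φ γ' N' ∧ N < N' ∧ (∀ x ∈ Sub h2 N, γ' x = γ x) ∧
      ∃ x ∈ Sub h2 N', γ' x = e k := by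
  have hφφ : ∀ x, φ (φ x) = x := fun x => by
    have := congrArg (fun l : E F ≃ₐ[F] E F => l x) hφ.sq
    simpa using this
  have hcγ : Commute γ tau := hγ.comm
  have hcγ' : γ⁻¹ * tau = tau * γ⁻¹ := hcγ.inv_left
  set φk : E F ≃ₐ[F] E F := γ⁻¹ * φ * γ with hφk
  have hφka : ∀ x, φk x = γ⁻¹ (φ (γ x)) := fun x => rfl
  have hgood : Good ε φk := by
    refine ⟨?_, ?_, ?_⟩
    · rw [hφk]
      calc γ⁻¹ * φ * γ * (γ⁻¹ * φ * γ) = γ⁻¹ * (φ * φ) * γ := by group
        _ = 1 := by rw [hφ.sq]; group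
    · have h1 : Commute φ tau := hφ.comm
      exact ((hcγ.inv_left.mul_left h1).mul_left hcγ)
    · intro i
      rw [hφka]
      have h1 : γ (e i) - e i ∈ (Fil 2 : Submodule F (E F)) := hγ.fil _
      have h3 : φ (γ (e i)) - ε i • e i ∈ (Fil 2 : Submodule F (E F)) := by
        have : φ (γ (e i)) - ε i • e i = φ (γ (e i) - e i) + (φ (e i) - ε i • e i) := by
          rw [map_sub]; abel
        rw [this]
        exact Submodule.add_mem _ (comm_Fil h2 hφ.comm 2 h1) (hφ.lin i)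
      have h4 : γ⁻¹ (φ (γ (e i))) - ε i • e i =
          (γ⁻¹ (φ (γ (e i))) - φ (γ (e i))) + (φ (γ (e i)) - ε i • e i) := by abel
      rw [h4]
      exact Submodule.add_mem _ (inv_fil h2 hγ.comm hγ.fil _) h3
  obtain ⟨M1, hM1⟩ := exists_pr h2 (γ⁻¹ (e k))
  obtain ⟨M2, hM2⟩ := exists_pr h2 (φk (γ⁻¹ (e k)))
  set N' := max (N + 1) (max M1 M2) with hN'
  obtain ⟨δ, hδc, hδF, hδs, hδX⟩ := main_lemma h2 hgood N'
  have hNN' : N ≤ N' := (Nat.le_succ N).trans (le_max_left _ _)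
  refine ⟨γ * δ, N', ⟨?_, ?_, ?_⟩, lt_of_lt_of_le (Nat.lt_succ_self N) (le_max_left _ _), ?_, ?_⟩
  · have : Commute δ tau := hδc
    exact hcγ.mul_left this
  · intro x
    have h1 : (γ * δ) x - x = (γ (δ x) - δ x) + (δ x - x) := by rw [mul_apply']; abel
    rw [h1]
    exact Submodule.add_mem _ (hγ.fil _) (hδF x)
  · intro x hx
    have h1 : (γ * δ)⁻¹ (φ ((γ * δ) x)) = δ⁻¹ (φk (δ x)) := by
      rw [mul_inv_rev]; rfl
    rw [h1]
    exact hδs x hx
  · intro x hx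
    rw [mul_apply', hδX x (Sub_mono h2 hNN' hx) (Sub_mono h2 hNN' (hγ.stab x hx))]
  · have h1 : γ⁻¹ (e k) ∈ Sub h2 N' :=
      Sub_mono h2 ((le_max_left M1 M2).trans (le_max_right _ _)) ((mem_Sub h2).mpr hM1)
    have h3 : φk (γ⁻¹ (e k)) ∈ Sub h2 N' :=
      Sub_mono h2 ((le_max_right M1 M2).trans (le_max_right _ _)) ((mem_Sub h2).mpr hM2)
    refine ⟨γ⁻¹ (e k), h1, ?_⟩
    rw [mul_apply', hδX _ h1 h3, apply_inv']

include h2 in
theorem linearize {ε : ℕ → F} (hε : ∀ i, ε i * ε i = 1) {φ : E F ≃ₐ[F] E F} (hφ : Good ε φ) :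
    ∃ Ψ : E F ≃ₐ[F] E F, ∀ i, φ (Ψ (e i)) = ε i • Ψ (e i) := by
  classical
  have hφφ : ∀ x, φ (φ x) = x := fun x => by
    have := congrArg (fun l : E F ≃ₐ[F] E F => l x) hφ.sq
    simpa using this
  -- the sequence
  let T := {p : (E F ≃ₐ[F] E F) × ℕ // St h2 φ p.1 p.2}
  have h0 : St h2 φ 1 0 := by
    refine ⟨by simp, fun x => by simp, ?_⟩
    intro x hx
    have hx' : pr h2 0 x = x := (mem_Sub h2).mp hx
    have h1 : ∀ y : E F, φ (pr h2 0 y) = pr h2 0 y := by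
      intro y
      have : ((φ : E F →ₐ[F] E F)).comp (pr h2 0) = pr h2 0 := by
        apply hom_ext'
        intro i
        simp [pr_e_ge h2 (Nat.zero_le i)]
      exact congrArg (fun l : E F →ₐ[F] E F => l y) this
    have h3 : (1 : E F ≃ₐ[F] E F)⁻¹ (φ ((1 : E F ≃ₐ[F] E F) x)) = φ x := by simp
    rw [h3, ← hx', h1]
    exact pr_mem_Sub h2 0 x
  have hstep : ∀ (k : ℕ) (t : T), ∃ t' : T, t.1.2 < t'.1.2 ∧ (∀ x ∈ Sub h2 t.1.2, t'.1.1 x = t.1.1 x) ∧
      ∃ x ∈ Sub h2 t'.1.2, t'.1.1 x = e k := by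
    rintro k ⟨⟨γ, N⟩, hγ⟩
    obtain ⟨γ', N', h1, h3, h4, h5⟩ := step h2 hφ hγ k
    exact ⟨⟨⟨γ', N'⟩, h1⟩, h3, h4, h5⟩
  choose nx hnx1 hnx2 hnx3 using hstep
  let t : ℕ → T := fun k => Nat.rec ⟨⟨1, 0⟩, h0⟩ (fun k t => nx k t) k
  have ht : ∀ k, t (k+1) = nx k (t k) := fun k => rfl
  set g : ℕ → (E F ≃ₐ[F] E F) := fun k => (t k).1.1 with hg
  set N : ℕ → ℕ := fun k => (t k).1.2 with hN
  have hst : ∀ k, St h2 φ (g k) (N k) := fun k => (t k).2
  have hNlt : ∀ k, N k < N (k+1) := fun k => by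
    have := hnx1 k (t k)
    rwa [← ht] at this
  have hNmono : StrictMono N := strictMono_nat_of_lt_succ hNlt
  have hNid : ∀ k, k ≤ N k := fun k => hNmono.le_apply
  have hgs : ∀ k, ∀ x ∈ Sub h2 (N k), g (k+1) x = g k x := fun k => by
    have := hnx2 k (t k)
    rwa [← ht] at this
  have hgle : ∀ k l, k ≤ l → ∀ x ∈ Sub h2 (N k), g l x = g k x := by
    intro k l hkl
    induction l, hkl using Nat.le_induction with
    | base => intro x _; rfl
    | succ l hl ih =>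
      intro x hx
      rw [hgs l x (Sub_mono h2 (hNmono.monotone hl) hx), ih x hx]
  have hge : ∀ k, ∃ x ∈ Sub h2 (N (k+1)), g (k+1) x = e k := fun k => by
    have := hnx3 k (t k)
    rwa [← ht] at this
  -- the limit
  set Γ0 : E F →ₐ[F] E F := L h2 (fun i => g (i+1) (e i))
    (fun i => tau_odd_of_comm (hst (i+1)).comm i) with hΓ0
  have hΓe : ∀ i, Γ0 (e i) = g (i+1) (e i) := fun i => by rw [hΓ0, L_e]
  have hΓ : ∀ k, ∀ x ∈ Sub h2 (N k), Γ0 x = g k x := by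
    intro k x hx
    have : Γ0.comp (pr h2 (N k)) = ((g k : E F ≃ₐ[F] E F) : E F →ₐ[F] E F).comp (pr h2 (N k)) := by
      apply hom_ext'
      intro i
      simp only [AlgHom.comp_apply, AlgHom.coe_coe]
      rcases lt_or_ge i (N k) with h | h
      · rw [pr_e_lt h2 h, hΓe]
        rcases le_total k (i+1) with h1 | h1
        · exact hgle k (i+1) h1 _ (e_mem_Sub h2 h)
        · exact (hgle (i+1) k h1 _ (e_mem_Sub h2 (lt_of_lt_of_le (Nat.lt_succ_self i) (hNid _)))).symm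
      · rw [pr_e_ge h2 h]; simp
    have h3 := congrArg (fun l : E F →ₐ[F] E F => l x) this
    simp only [AlgHom.comp_apply, AlgHom.coe_coe] at h3
    rwa [(mem_Sub h2).mp hx] at h3
  have hmem : ∀ x : E F, ∃ k, x ∈ Sub h2 (N k) := by
    intro x
    obtain ⟨M, hM⟩ := exists_pr h2 x
    exact ⟨M, Sub_mono h2 (hNid M) ((mem_Sub h2).mpr hM)⟩
  have hinj : Function.Injective Γ0 := by
    rw [injective_iff_map_eq_zero]
    intro x hx
    obtain ⟨k, hk⟩ := hmem x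
    rw [hΓ k x hk] at hx
    exact (map_eq_zero_iff (g k) (g k).injective).mp hx
  have hsurj : Function.Surjective Γ0 := by
    intro x
    have hr : ∀ i, (e i : E F) ∈ Γ0.range := by
      intro i
      obtain ⟨y, hy, hye⟩ := hge i
      exact ⟨y, by
        change Γ0 y = e i
        rw [hΓ (i+1) y hy, hye]⟩
    change x ∈ Γ0.range
    induction x using ExteriorAlgebra.induction with
    | algebraMap r => exact Subalgebra.algebraMap_mem _ r
    | ι m =>
      have := lin_ind (h := LinearMap.id) (P := Subalgebra.toSubmodule Γ0.range) (fun i => hr i) m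
      exact this
    | mul a b ha hb => exact Subalgebra.mul_mem _ ha hb
    | add a b ha hb => exact Subalgebra.add_mem _ ha hb
  set Γ : E F ≃ₐ[F] E F := AlgEquiv.ofBijective Γ0 ⟨hinj, hsurj⟩ with hΓdef
  have hΓa : ∀ x, Γ x = Γ0 x := fun x => rfl
  -- the new involution
  set φ' : E F ≃ₐ[F] E F := Γ⁻¹ * φ * Γ with hφ'
  have hφ'sq : φ' * φ' = 1 := by
    calc φ' * φ' = Γ⁻¹ * (φ * φ) * Γ := by rw [hφ']; group
      _ = 1 := by rw [hφ.sq]; group
  have hφ'loc : ∀ k, ∀ x ∈ Sub h2 (N k), φ' x = (g k)⁻¹ (φ (g k x)) := by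
    intro k x hx
    have h1 : φ' x = Γ⁻¹ (φ (Γ x)) := rfl
    rw [h1, hΓa, hΓ k x hx]
    have h3 : φ (g k x) = Γ ((g k)⁻¹ (φ (g k x))) := by
      rw [hΓa, hΓ k _ ((hst k).stab x hx), apply_inv']
    rw [h3, inv_apply', ← h3]
  have hφ'stab : ∀ k, ∀ x ∈ Sub h2 (N k), φ' x ∈ Sub h2 (N k) := by
    intro k x hx
    rw [hφ'loc k x hx]
    exact (hst k).stab x hx
  -- the diagonal involution
  have hεe : ∀ i, tau (ε i • (e i : E F)) = - (ε i • e i) := fun i => by simp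
  set φ0 : E F →ₐ[F] E F := L h2 (fun i => ε i • e i) hεe with hφ0
  have hφ0e : ∀ i, φ0 (e i) = ε i • e i := fun i => by rw [hφ0, L_e]
  have hφ0sq : φ0.comp φ0 = AlgHom.id F (E F) := by
    apply hom_ext'
    intro i
    simp only [AlgHom.comp_apply, hφ0e, map_smul, smul_smul, hε, one_smul, AlgHom.id_apply]
  set Φ0 : E F ≃ₐ[F] E F := AlgEquiv.ofAlgHom φ0 φ0 hφ0sq hφ0sq with hΦ0
  have hΦ0a : ∀ x, Φ0 x = φ0 x := fun x => rfl
  have hΦ0sq : Φ0 * Φ0 = 1 := by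
    ext x
    exact congrArg (fun l : E F →ₐ[F] E F => l x) hφ0sq
  have hφ0Sub : ∀ M, ∀ x ∈ Sub h2 M, φ0 x ∈ Sub h2 M := by
    intro M x hx
    have : (pr h2 M).comp (φ0.comp (pr h2 M)) = φ0.comp (pr h2 M) := by
      apply hom_ext'
      intro i
      simp only [AlgHom.comp_apply]
      rcases lt_or_ge i M with h | h
      · rw [pr_e_lt h2 h, hφ0e, map_smul, pr_e_lt h2 h]
      · rw [pr_e_ge h2 h]; simp
    have h3 := congrArg (fun l : E F →ₐ[F] E F => l x) this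
    simp only [AlgHom.comp_apply] at h3
    rw [(mem_Sub h2).mp hx] at h3
    exact (mem_Sub h2).mpr h3
  set v : E F ≃ₐ[F] E F := Φ0 * φ' with hv
  have hvF : U1 (v : E F →ₐ[F] E F) := by
    intro i
    change v (e i) - e i ∈ _
    rw [hv, mul_apply', hΦ0a]
    have hei : (e i : E F) ∈ Sub h2 (N (i+1)) :=
      e_mem_Sub h2 (lt_of_lt_of_le (Nat.lt_succ_self i) (hNid _))
    have h1 : φ' (e i) - ε i • e i ∈ (Fil 2 : Submodule F (E F)) := by
      rw [hφ'loc (i+1) _ hei]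
      have k1 : g (i+1) (e i) - e i ∈ (Fil 2 : Submodule F (E F)) := (hst (i+1)).fil _
      have k3 : φ (g (i+1) (e i)) - ε i • e i ∈ (Fil 2 : Submodule F (E F)) := by
        have : φ (g (i+1) (e i)) - ε i • e i = φ (g (i+1) (e i) - e i) + (φ (e i) - ε i • e i) := by
          rw [map_sub]; abel
        rw [this]
        exact Submodule.add_mem _ (comm_Fil h2 hφ.comm 2 k1) (hφ.lin i)
      have k4 : (g (i+1))⁻¹ (φ (g (i+1) (e i))) - ε i • e i =
          ((g (i+1))⁻¹ (φ (g (i+1) (e i))) - φ (g (i+1) (e i))) + (φ (g (i+1) (e i)) - ε i • e i) := by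
        abel
      rw [k4]
      exact Submodule.add_mem _ (inv_fil h2 (hst (i+1)).comm (hst (i+1)).fil _) k3
    have h3 : φ0 (φ' (e i)) - e i = φ0 (φ' (e i) - ε i • e i) := by
      rw [map_sub, map_smul, hφ0e, smul_smul, hε, one_smul]
    rw [h3]
    apply hom_Fil h2 _ 2 h1
    intro j
    rw [hφ0e]
    exact Submodule.smul_mem _ _ (e_mem_Fil j)
  have hvun : Un v := by
    intro a
    obtain ⟨k, hk⟩ := hmem a
    obtain ⟨D, hD⟩ := separated (Sub_fg h2 (N k) (F := F))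
    have key : ∀ j : ℕ, ((lin v - 1) ^ j) a ∈ Sub h2 (N k) ∧
        ((lin v - 1) ^ j) a ∈ (Fil j : Submodule F (E F)) := by
      intro j
      induction j with
      | zero => exact ⟨by simpa using hk, mem_Fil_zero _⟩
      | succ j ih =>
        rw [pow_succ', Module.End.mul_apply]
        constructor
        · refine Submodule.sub_mem _ ?_ ih.1
          change φ0 (φ' _) ∈ _
          exact hφ0Sub _ _ (hφ'stab k _ ih.1)
        · exact U1_Fil h2 hvF j ih.2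
    exact ⟨D, hD _ (key D).1 (key D).2⟩
  obtain ⟨r, hr, hrun, hrc, -⟩ := exists_root h2 hvun
  have hconj : φ' * r = r * Φ0 := conj_root h2 hφ'sq hΦ0sq hr hrun hrc
  refine ⟨Γ * r, fun i => ?_⟩
  have h1 : φ * (Γ * r) = (Γ * r) * Φ0 := by
    have : φ * Γ = Γ * φ' := by rw [hφ']; group
    rw [← mul_assoc, this, mul_assoc, hconj, mul_assoc]
  have h3 := congrArg (fun l : E F ≃ₐ[F] E F => l (e i)) h1
  simp only [mul_apply', hΦ0a, hφ0e, map_smul] at h3
  exact h3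

end Pool.Agent.H89R3.Gr
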