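import Mathlib

set_option autoImplicit false

open Set Filter Topology
open scoped Manifold ContDiff

noncomputable section

namespace Pool.Agent.H89R3.Circ

instance fact2 : Fact ((0:ℝ) < 2) := ⟨by norm_num⟩

/-- the circle `ℝ / 2ℤ` -/
abbrev N := AddCircle (2:ℝ)

/-- the half space as target of a chart of the line -/
def q (a : ℝ) : OpenPartialHomeomorph ℝ (EuclideanHalfSpace 1) where
  toFun y := ⟨WithLp.toLp 2 (fun _ => max (y - a) 0), by simp⟩
  invFun z := z.val 0 + a
  source := Ioi a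
  target := {z | 0 < z.val 0}
  map_source' := by
    intro x hx
    have : 0 < x - a := sub_pos.mpr hx
    simpa using hx
  map_target' := by
    intro z hz
    simp only [mem_ofPred_eq] at hz
    simp only [mem_Ioi]
    linarith
  left_inv' := by
    intro x hx
    have : 0 < x - a := sub_pos.mpr hx
    simp [max_eq_left this.le]
  right_inv' := by
    intro z hz
    simp only [mem_ofPred_eq] at hz
    apply Subtype.ext
    ext i
    have : i = 0 := Subsingleton.elim _ _
    subst this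
    simp [max_eq_left hz.le]
  open_source := isOpen_Ioi
  open_target := by
    apply isOpen_lt continuous_const
    fun_prop
  continuousOn_toFun := by
    apply Continuous.continuousOn
    apply Continuous.subtype_mk
    fun_prop
  continuousOn_invFun := by
    apply Continuous.continuousOn
    fun_prop

/-- charts of the circle -/
def ch (a : ℝ) : OpenPartialHomeomorph N (EuclideanHalfSpace 1) :=
  (AddCircle.openPartialHomeomorphCoe (2:ℝ) a).symm.trans (q a)

lemma sec_mem {a : ℝ} {x : N} (hx : x ≠ (a : N)) :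
    a < (AddCircle.equivIco 2 a x : ℝ) := by
  have h := (AddCircle.equivIco 2 a x).2
  rcases lt_or_eq_of_le h.1 with h1 | h1
  · exact h1
  · exfalso
    apply hx
    conv_lhs => rw [← AddCircle.coe_equivIco (p := (2:ℝ)) (a := a) (y := x)]
    rw [← h1]

lemma ch_source (a : ℝ) : (ch a).source = {(a : N)}ᶜ := by
  ext x
  simp only [ch, OpenPartialHomeomorph.trans_source, OpenPartialHomeomorph.symm_source,
    AddCircle.openPartialHomeomorphCoe_target, mem_inter_iff, mem_compl_iff, mem_singleton_iff,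
    mem_preimage, q, mem_Ioi]
  constructor
  · exact fun h => h.1
  · intro h
    refine ⟨h, ?_⟩
    exact sec_mem h

lemma ch_apply (a : ℝ) (x : N) :
    ((ch a) x).val 0 = max ((AddCircle.equivIco 2 a x : ℝ) - a) 0 := by
  simp [ch, q]

lemma ch_symm_apply (a : ℝ) (z : EuclideanHalfSpace 1) :
    (ch a).symm z = ((z.val 0 + a : ℝ) : N) := by
  simp [ch, q]

lemma key (b y0 : ℝ) (h : (y0 : N) ≠ b) :
    ∃ c : ℝ, ∀ᶠ y : ℝ in 𝓝 y0, (AddCircle.equivIco 2 b (y : N) : ℝ) = y + c ∧ b < y + c := by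
  set r : ℝ := (AddCircle.equivIco 2 b (y0 : N) : ℝ) with hr
  have hr1 : b < r := sec_mem h
  have hr2 : r < b + 2 := (AddCircle.equivIco 2 b (y0 : N)).2.2
  have hrc : ((r : ℝ) : N) = y0 := AddCircle.coe_equivIco
  refine ⟨r - y0, ?_⟩
  have hc : Continuous (fun y : ℝ => y + (r - y0)) := by fun_prop
  have h1 : ∀ᶠ y in 𝓝 y0, y + (r - y0) ∈ Ioo b (b + 2) := by
    apply hc.continuousAt.eventually_mem
    apply isOpen_Ioo.mem_nhds
    simp [hr1, hr2]
  filter_upwards [h1] with y hy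
  refine ⟨?_, hy.1⟩
  have h2 : (y : N) = ((y + (r - y0) : ℝ) : N) := by
    rw [AddCircle.coe_add, AddCircle.coe_sub, hrc, sub_self, add_zero]
  rw [h2, AddCircle.equivIco_coe_eq (Ioo_subset_Ico_self hy)]

lemma zero_ne_one : ((0:ℝ) : N) ≠ ((1:ℝ) : N) := by
  intro h
  have h1 : ((1:ℝ) : N) = 0 := by rw [← h]; simp
  rw [AddCircle.coe_eq_zero_iff] at h1
  obtain ⟨n, hn⟩ := h1
  have : (n : ℝ) * 2 = 1 := by simpa using hn
  have h3 : (n * 2 : ℤ) = 1 := by exact_mod_cast this
  omega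

open Classical in
instance chartedN : ChartedSpace (EuclideanHalfSpace 1) N where
  atlas := {ch 0, ch 1}
  chartAt x := if x = ((0:ℝ) : N) then ch 1 else ch 0
  mem_chart_source x := by
    split_ifs with h
    · rw [ch_source, h]; simpa using zero_ne_one
    · rw [ch_source]; simpa using h
  chart_mem_atlas x := by
    split_ifs <;> simp


lemma extCh_apply (a : ℝ) (x : N) :
    ((𝓡∂ 1) ((ch a) x)) = WithLp.toLp 2 (fun _ => max ((AddCircle.equivIco 2 a x : ℝ) - a) 0) := by
  rw [modelWithCornersEuclideanHalfSpace_toFun]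
  ext i
  have : i = 0 := Subsingleton.elim _ _
  subst this
  rw [ch_apply]

lemma symm_val (v : EuclideanSpace ℝ (Fin 1)) : ((𝓡∂ 1).symm v).val 0 = max (v 0) 0 := by
  rw [modelWithCornersEuclideanHalfSpace_symm_apply]
  simp

lemma trans_contDiffAt (a b : ℝ) (n : WithTop ℕ∞) (v : EuclideanSpace ℝ (Fin 1))
    (hv : 0 < v 0) (hb : ((v 0 + a : ℝ) : N) ≠ b) :
    ContDiffAt ℝ n ((𝓡∂ 1) ∘ ((ch a).symm.trans (ch b)) ∘ (𝓡∂ 1).symm) v := by
  obtain ⟨c, hc⟩ := key b (v 0 + a) hb
  have hcont : ContinuousAt (fun w : EuclideanSpace ℝ (Fin 1) => w 0 + a) v := by fun_prop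
  have hc' := hcont.eventually hc
  have hpos : ∀ᶠ w : EuclideanSpace ℝ (Fin 1) in 𝓝 v, 0 < w 0 := by
    have : ContinuousAt (fun w : EuclideanSpace ℝ (Fin 1) => w 0) v := by fun_prop
    exact this.eventually (lt_mem_nhds hv)
  have hsm : ContDiffAt ℝ n (fun w : EuclideanSpace ℝ (Fin 1) =>
      WithLp.toLp 2 (fun _ : Fin 1 => w 0 + a + c - b)) v := by
    apply ContDiff.contDiffAt
    rw [contDiff_euclidean]
    intro i
    simp only
    fun_prop
  refine hsm.congr_of_eventuallyEq ?_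
  filter_upwards [hc', hpos] with w hw hw0
  simp only [Function.comp_apply, OpenPartialHomeomorph.coe_trans]
  rw [ch_symm_apply, symm_val, max_eq_left hw0.le, extCh_apply]
  ext i
  simp only
  rw [hw.1, max_eq_left]
  linarith [hw.2]

instance manifoldN (n : WithTop ℕ∞) : IsManifold (𝓡∂ 1) n N := by
  apply isManifold_of_contDiffOn
  have main : ∀ a b : ℝ, ContDiffOn ℝ n ((𝓡∂ 1) ∘ ((ch a).symm.trans (ch b)) ∘ (𝓡∂ 1).symm)
      ((𝓡∂ 1).symm ⁻¹' ((ch a).symm.trans (ch b)).source ∩ range (𝓡∂ 1)) := by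
    intro a b v hv
    obtain ⟨hv1, hv2⟩ := hv
    obtain ⟨z, rfl⟩ := hv2
    rw [mem_preimage, ModelWithCorners.left_inv, OpenPartialHomeomorph.trans_source] at hv1
    obtain ⟨h1, h2⟩ := hv1
    have hz : 0 < z.val 0 := by
      simp only [ch, OpenPartialHomeomorph.symm_source, OpenPartialHomeomorph.trans_target] at h1
      exact h1.1
    rw [mem_preimage, ch_source, ch_symm_apply] at h2
    apply ContDiffAt.contDiffWithinAt
    apply trans_contDiffAt
    · exact hz
    · exact h2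
  intro e e' he he'
  have h1 : e = ch 0 ∨ e = ch 1 := he
  have h2 : e' = ch 0 ∨ e' = ch 1 := he'
  rcases h1 with rfl | rfl <;> rcases h2 with rfl | rfl <;> apply main

lemma exists_chart (x : N) : ∃ a : ℝ, x ≠ (a : N) ∧ chartAt (EuclideanHalfSpace 1) x = ch a := by
  by_cases h : x = ((0:ℝ) : N)
  · refine ⟨1, ?_, ?_⟩
    · rw [h]; exact zero_ne_one
    · change (if x = ((0:ℝ) : N) then ch 1 else ch 0) = _
      rw [if_pos h]
  · refine ⟨0, h, ?_⟩
    change (if x = ((0:ℝ) : N) then ch 1 else ch 0) = _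
    rw [if_neg h]

/-- the projection of the line to the circle is smooth -/
lemma contMDiff_coe (n : WithTop ℕ∞) : ContMDiff 𝓘(ℝ, ℝ) (𝓡∂ 1) n (fun y : ℝ => (y : N)) := by
  intro y0
  obtain ⟨b, hb, hch⟩ := exists_chart (y0 : N)
  rw [contMDiffAt_iff_target]
  refine ⟨(AddCircle.continuous_mk' _).continuousAt, ?_⟩
  rw [contMDiffAt_iff_contDiffAt]
  obtain ⟨c, hc⟩ := key b y0 hb
  have hsm : ContDiffAt ℝ n (fun w : ℝ =>
      WithLp.toLp 2 (fun _ : Fin 1 => w + c - b)) y0 := by
    apply ContDiff.contDiffAt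
    rw [contDiff_euclidean]
    intro i
    simp only
    fun_prop
  refine hsm.congr_of_eventuallyEq ?_
  filter_upwards [hc] with w hw
  simp only [Function.comp_apply, extChartAt, hch, OpenPartialHomeomorph.extend_coe]
  rw [extCh_apply]
  ext i
  simp only
  rw [hw.1, max_eq_left]
  linarith [hw.2]

/-- a local section of the projection -/
lemma exists_section (n : WithTop ℕ∞) (x0 : N) : ∃ s : N → ℝ, ContMDiffAt (𝓡∂ 1) 𝓘(ℝ, ℝ) n s x0 ∧
    ∀ x, ((s x : ℝ) : N) = x := by
  obtain ⟨b, hb, hch⟩ := exists_chart x0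
  refine ⟨fun x => (AddCircle.equivIco 2 b x : ℝ), ?_, fun x => AddCircle.coe_equivIco⟩
  rw [contMDiffAt_iff_source]
  have hx0 : (extChartAt (𝓡∂ 1) x0 x0) = 
      WithLp.toLp 2 (fun _ => max ((AddCircle.equivIco 2 b x0 : ℝ) - b) 0) := by
    simp only [extChartAt, hch, OpenPartialHomeomorph.extend_coe, Function.comp_apply]
    rw [extCh_apply]
  have hpos : 0 < (AddCircle.equivIco 2 b x0 : ℝ) - b := sub_pos.mpr (sec_mem hb)
  have hlt : (AddCircle.equivIco 2 b x0 : ℝ) - b < 2 := by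
    have := (AddCircle.equivIco 2 b x0).2.2
    linarith
  have hx0' : (extChartAt (𝓡∂ 1) x0 x0) 0 = (AddCircle.equivIco 2 b x0 : ℝ) - b := by
    rw [hx0]
    simp [max_eq_left hpos.le]
  apply ContMDiffAt.contMDiffWithinAt
  rw [contMDiffAt_iff_contDiffAt]
  have hsm : ContDiffAt ℝ n (fun w : EuclideanSpace ℝ (Fin 1) => w 0 + b)
      (extChartAt (𝓡∂ 1) x0 x0) := by
    fun_prop
  refine hsm.congr_of_eventuallyEq ?_
  have hcont : ContinuousAt (fun w : EuclideanSpace ℝ (Fin 1) => w 0) (extChartAt (𝓡∂ 1) x0 x0) := by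
    fun_prop
  have hev : ∀ᶠ w : EuclideanSpace ℝ (Fin 1) in 𝓝 (extChartAt (𝓡∂ 1) x0 x0), w 0 ∈ Ioo (0:ℝ) 2 := by
    apply hcont.eventually_mem
    apply isOpen_Ioo.mem_nhds
    rw [hx0']
    exact ⟨hpos, hlt⟩
  filter_upwards [hev] with w hw
  simp only [Function.comp_apply, extChartAt, hch, OpenPartialHomeomorph.extend_coe_symm]
  rw [ch_symm_apply, symm_val, max_eq_left hw.1.le, AddCircle.equivIco_coe_eq]
  constructor
  · linarith [hw.1]
  · linarith [hw.2]

end Pool.Agent.H89R3.Circ
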