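import Mathlib
import Pool.Agent.H89R3.Circ

set_option autoImplicit false

open Set Filter Topology
open scoped Manifold ContDiff

noncomputable section

namespace Pool.Agent.H89R3.Circ

/-- the closed unit interval -/
abbrev M := Icc (0:ℝ) 1

lemma coe_inj_M {s t : ℝ} (hs : s ∈ Icc (0:ℝ) 1) (ht : t ∈ Icc (0:ℝ) 1) (h : (s : N) = t) : s = t := by
  have h1 : s ∈ Ico (0:ℝ) (0 + 2) := ⟨hs.1, by linarith [hs.2]⟩
  have h2 : t ∈ Ico (0:ℝ) (0 + 2) := ⟨ht.1, by linarith [ht.2]⟩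
  exact (AddCircle.coe_eq_coe_iff_of_mem_Ico h1 h2).mp h

/-- a permutation of the interval preserving or exchanging the end points -/
def P (σ : M → M) : Prop := ((σ 0 = 0 ∧ σ 1 = 1) ∨ (σ 0 = 1 ∧ σ 1 = 0))

open Classical in
/-- the double of a self map of the interval -/
def D (σ : M → M) (x : N) : N :=
  if h : (AddCircle.equivIco 2 0 x : ℝ) ≤ 1 then
    (((σ ⟨(AddCircle.equivIco 2 0 x : ℝ), ⟨(AddCircle.equivIco 2 0 x).2.1, h⟩⟩ : M) : ℝ) : N)
  else
    - (((σ ⟨2 - (AddCircle.equivIco 2 0 x : ℝ), by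
      have h2 := (AddCircle.equivIco 2 0 x).2.2
      constructor <;> linarith⟩ : M) : ℝ) : N)

lemma D_pos (σ : M → M) (t : M) : D σ ((t : ℝ) : N) = ((σ t : ℝ) : N) := by
  have h1 : (t : ℝ) ∈ Ico (0:ℝ) (0 + 2) := ⟨t.2.1, by linarith [t.2.2]⟩
  have h2 : (AddCircle.equivIco 2 0 ((t : ℝ) : N) : ℝ) = t := by
    rw [AddCircle.equivIco_coe_eq h1]
  unfold D
  rw [dif_pos (by rw [h2]; exact t.2.2)]
  congr 3
  exact Subtype.ext h2

lemma neg_one_N : -((1:ℝ) : N) = ((1:ℝ) : N) := by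
  have : ((1:ℝ) : N) + ((1:ℝ) : N) = 0 := by
    rw [← AddCircle.coe_add]
    norm_num
  exact (eq_neg_of_add_eq_zero_left this).symm

lemma two_torsion (σ : M → M) (hσ : P σ) (i : M) (hi : i = 0 ∨ i = 1) :
    -((σ i : ℝ) : N) = ((σ i : ℝ) : N) := by
  have h : σ i = 0 ∨ σ i = 1 := by
    rcases hσ with ⟨h0, h1⟩ | ⟨h0, h1⟩ <;> rcases hi with rfl | rfl <;> simp [h0, h1]
  rcases h with h | h
  · rw [h]; simp
  · rw [h]; exact neg_one_N

lemma D_neg (σ : M → M) (hσ : P σ) (t : M) : D σ (-((t : ℝ) : N)) = -((σ t : ℝ) : N) := by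
  by_cases h0 : t = 0
  · subst h0
    have := D_pos σ 0
    rw [two_torsion σ hσ 0 (Or.inl rfl), ← this]
    simp
  by_cases h1 : t = 1
  · subst h1
    have := D_pos σ 1
    rw [two_torsion σ hσ 1 (Or.inr rfl), ← this]
    have h2 : -(((1 : M) : ℝ) : N) = (((1 : M) : ℝ) : N) := by
      have := neg_one_N
      simpa using this
    rw [h2]
  have ht0 : 0 < (t : ℝ) := lt_of_le_of_ne t.2.1 (fun h => h0 (Subtype.ext h.symm))
  have ht1 : (t : ℝ) < 1 := lt_of_le_of_ne t.2.2 (fun h => h1 (Subtype.ext h))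
  have e1 : -((t : ℝ) : N) = ((2 - t : ℝ) : N) := by
    rw [AddCircle.coe_sub, AddCircle.coe_period, zero_sub]
  have hm : (2 - (t:ℝ)) ∈ Ico (0:ℝ) (0 + 2) := ⟨by linarith, by linarith⟩
  have h2 : (AddCircle.equivIco 2 0 (-((t : ℝ) : N)) : ℝ) = 2 - t := by
    rw [e1, AddCircle.equivIco_coe_eq hm]
  unfold D
  rw [dif_neg (by rw [h2]; linarith)]
  congr 4
  apply Subtype.ext
  simp only
  rw [h2]; ring

lemma exists_rep (x : N) : ∃ t : M, x = ((t : ℝ) : N) ∨ x = -((t : ℝ) : N) := by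
  have h := (AddCircle.equivIco 2 0 x).2
  have hx : ((AddCircle.equivIco 2 0 x : ℝ) : N) = x := AddCircle.coe_equivIco
  by_cases h1 : (AddCircle.equivIco 2 0 x : ℝ) ≤ 1
  · exact ⟨⟨_, ⟨h.1, h1⟩⟩, Or.inl hx.symm⟩
  · refine ⟨⟨2 - (AddCircle.equivIco 2 0 x : ℝ), ?_, ?_⟩, Or.inr ?_⟩
    · linarith [h.2]
    · linarith
    · simp only
      rw [AddCircle.coe_sub, AddCircle.coe_period, zero_sub, neg_neg, hx]

lemma D_comp (σ τ : M → M) (hσ : P σ) (hτ : P τ) (x : N) : D σ (D τ x) = D (σ ∘ τ) x := by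
  have hc : P (σ ∘ τ) := by
    rcases hσ with ⟨h0, h1⟩ | ⟨h0, h1⟩ <;> rcases hτ with ⟨h2, h3⟩ | ⟨h2, h3⟩ <;>
      simp [P, h0, h1, h2, h3]
  obtain ⟨t, rfl | rfl⟩ := exists_rep x
  · rw [D_pos, D_pos, D_pos]; rfl
  · rw [D_neg _ hτ, D_neg _ hσ, D_neg _ hc]; rfl

lemma D_id (x : N) : D id x = x := by
  obtain ⟨t, rfl | rfl⟩ := exists_rep x
  · rw [D_pos]; rfl
  · rw [D_neg _ (Or.inl ⟨rfl, rfl⟩)]; rfl

/-- a homeomorphism of the interval preserves or exchanges the end points -/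
lemma P_of_cont (σ : Equiv.Perm M) (hc : Continuous σ) : P σ := by
  have h := hc.strictMono_of_inj σ.injective
  obtain ⟨a, ha⟩ := σ.surjective 0
  obtain ⟨b, hb⟩ := σ.surjective 1
  have l0 : ∀ t : M, 0 ≤ t := fun t => t.2.1
  have l1 : ∀ t : M, t ≤ 1 := fun t => t.2.2
  rcases h with h | h
  · left
    constructor
    · apply le_antisymm _ (l0 _)
      calc σ 0 ≤ σ a := h.monotone (l0 a)
        _ = 0 := ha
    · apply le_antisymm (l1 _)
      calc (1 : M) = σ b := hb.symm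
        _ ≤ σ 1 := h.monotone (l1 b)
  · right
    constructor
    · apply le_antisymm (l1 _)
      calc (1 : M) = σ b := hb.symm
        _ ≤ σ 0 := h.antitone (l0 b)
    · apply le_antisymm _ (l0 _)
      calc σ 1 ≤ σ a := h.antitone (l1 a)
        _ = 0 := ha

/-- the triangle wave -/
def T (s : ℝ) : ℝ := Real.arccos (Real.cos (Real.pi * s)) / Real.pi

lemma T_cont : Continuous T := by
  unfold T
  exact (Real.continuous_arccos.comp (Real.continuous_cos.comp (by fun_prop))).div_const _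

lemma T_mem (s : ℝ) : T s ∈ Icc (0:ℝ) 1 := by
  unfold T
  constructor
  · exact div_nonneg (Real.arccos_nonneg _) Real.pi_pos.le
  · rw [div_le_one Real.pi_pos]; exact Real.arccos_le_pi _

lemma T_eq {s : ℝ} (hs : s ∈ Icc (0:ℝ) 1) : T s = s := by
  unfold T
  rw [Real.arccos_cos]
  · field_simp
  · exact mul_nonneg Real.pi_pos.le hs.1
  · nlinarith [Real.pi_pos, hs.2]

lemma T_neg (s : ℝ) : T (-s) = T s := by
  unfold T
  rw [mul_neg, Real.cos_neg]

lemma T_per : Function.Periodic T 2 := by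
  intro s
  unfold T
  rw [mul_add, mul_comm Real.pi 2, Real.cos_add_two_pi]

section lift

variable (σ : M → M) (hσ : P σ) (hd : ContMDiff (𝓡∂ 1) (𝓡∂ 1) 1 σ)

/-- the real extension of a self map of the interval -/
def f (s : ℝ) : ℝ := (σ (Set.projIcc 0 1 zero_le_one s) : ℝ)

include hd in
lemma f_contDiffOn : ContDiffOn ℝ 1 (f σ) (Icc 0 1) := by
  rw [← contMDiffOn_iff_contDiffOn]
  have : Fact ((0:ℝ) < 1) := ⟨zero_lt_one⟩
  have h1 : ContMDiffOn 𝓘(ℝ, ℝ) (𝓡∂ 1) 1 (Set.projIcc (0:ℝ) 1 zero_le_one) (Icc 0 1) :=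
    contMDiffOn_projIcc
  have h2 : ContMDiff (𝓡∂ 1) 𝓘(ℝ, ℝ) 1 (fun (z : Icc (0:ℝ) 1) ↦ (z : ℝ)) := contMDiff_subtypeVal_Icc
  exact (h2.comp hd).comp_contMDiffOn h1

lemma f_coe (t : M) : f σ t = σ t := by
  unfold f
  rw [Set.projIcc_val]

/-- derivative of the lift -/
def phi (s : ℝ) : ℝ := derivWithin (f σ) (Icc 0 1) (T s)

include hd in
lemma phi_cont : Continuous (phi σ) := by
  have h1 : ContinuousOn (derivWithin (f σ) (Icc 0 1)) (Icc 0 1) :=
    (f_contDiffOn σ hd).continuousOn_derivWithin (uniqueDiffOn_Icc zero_lt_one) le_rfl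
  rw [← continuousOn_univ]
  exact h1.comp T_cont.continuousOn (fun s _ => T_mem s)

/-- the lift -/
def F (y : ℝ) : ℝ := f σ 0 + ∫ s in (0:ℝ)..y, phi σ s

include hd in
lemma F_hasDeriv (y : ℝ) : HasDerivAt (F σ) (phi σ y) y := by
  unfold F
  have h := (phi_cont σ hd).integral_hasStrictDerivAt 0 y
  exact h.hasDerivAt.const_add _

include hd in
lemma F_contDiff : ContDiff ℝ 1 (F σ) := by
  rw [contDiff_one_iff_deriv]
  refine ⟨fun y => (F_hasDeriv σ hd y).differentiableAt, ?_⟩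
  have : deriv (F σ) = phi σ := funext fun y => (F_hasDeriv σ hd y).deriv
  rw [this]
  exact phi_cont σ hd

include hd in
lemma F_eq {y : ℝ} (hy : y ∈ Icc (0:ℝ) 1) : F σ y = f σ y := by
  have hc := f_contDiffOn σ hd
  have h : ∫ s in (0:ℝ)..y, phi σ s = f σ y - f σ 0 := by
    apply intervalIntegral.integral_eq_sub_of_hasDeriv_right
    · rw [uIcc_of_le hy.1]
      exact hc.continuousOn.mono (Icc_subset_Icc_right hy.2)
    · intro x hx
      rw [min_eq_left hy.1, max_eq_right hy.1] at hx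
      have hx' : x ∈ Icc (0:ℝ) 1 := ⟨hx.1.le, hx.2.le.trans hy.2⟩
      have hn : Icc (0:ℝ) 1 ∈ 𝓝 x := Icc_mem_nhds hx.1 (lt_of_lt_of_le hx.2 hy.2)
      have h1 : HasDerivWithinAt (f σ) (derivWithin (f σ) (Icc 0 1) x) (Icc 0 1) x :=
        (hc.differentiableOn (by norm_num) x hx').hasDerivWithinAt
      have h2 : HasDerivAt (f σ) (derivWithin (f σ) (Icc 0 1) x) x := h1.hasDerivAt hn
      unfold phi
      rw [T_eq hx']
      exact h2.hasDerivWithinAt
    · exact (phi_cont σ hd).intervalIntegrable _ _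
  unfold F
  rw [h]; ring

lemma phi_neg (s : ℝ) : phi σ (-s) = phi σ s := by
  unfold phi; rw [T_neg]

lemma phi_per : Function.Periodic (phi σ) 2 := by
  intro s
  unfold phi; rw [T_per]

lemma F_neg (y : ℝ) : F σ (-y) = 2 * f σ 0 - F σ y := by
  unfold F
  have h : ∫ s in (0:ℝ)..y, phi σ s = - ∫ s in (0:ℝ)..(-y), phi σ s := by
    have h1 := intervalIntegral.integral_comp_neg (a := 0) (b := y) (phi σ)
    simp only [phi_neg, neg_zero] at h1
    rw [h1, intervalIntegral.integral_symm]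
  rw [h]; ring

include hd in
lemma F_add_two (y : ℝ) : F σ (y + 2) = F σ y + 2 * (f σ 1 - f σ 0) := by
  have hi : ∀ a b : ℝ, IntervalIntegrable (phi σ) MeasureTheory.volume a b :=
    fun a b => (phi_cont σ hd).intervalIntegrable _ _
  have h1 : F σ (y + 2) - F σ y = ∫ s in y..(y+2), phi σ s := by
    unfold F
    rw [← intervalIntegral.integral_interval_sub_left (hi 0 (y+2)) (hi 0 y)]
    ring
  have h2 : ∫ s in y..(y+2), phi σ s = ∫ s in (-1:ℝ)..(-1+2), phi σ s :=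
    (phi_per σ).intervalIntegral_add_eq y (-1)
  have h3 : F σ 1 - F σ (-1) = ∫ s in (-1:ℝ)..1, phi σ s := by
    unfold F
    rw [← intervalIntegral.integral_interval_sub_left (hi 0 1) (hi 0 (-1))]
    ring
  have h4 : F σ (-1) = 2 * f σ 0 - F σ 1 := F_neg σ 1
  have h5 : F σ 1 = f σ 1 := F_eq σ hd ⟨zero_le_one, le_rfl⟩
  have h6 : (-1:ℝ) + 2 = 1 := by norm_num
  rw [h6] at h2
  linarith

include hσ hd in
lemma F_lift (y : ℝ) : ((F σ y : ℝ) : N) = D σ (y : N) := by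
  have hf0 : f σ 0 = σ 0 := f_coe σ 0
  have hf1 : f σ 1 = σ 1 := f_coe σ 1
  have per : Function.Periodic (fun y : ℝ => (((F σ y : ℝ) : N), D σ (y : N))) 2 := by
    intro y
    simp only
    rw [F_add_two σ hd]
    congr 1
    · rw [AddCircle.coe_add]
      have : ((2 * (f σ 1 - f σ 0) : ℝ) : N) = 0 := by
        rw [AddCircle.coe_eq_zero_iff, hf0, hf1]
        rcases hσ with ⟨h0, h1⟩ | ⟨h0, h1⟩
        · exact ⟨1, by rw [h0, h1]; simp⟩
        · exact ⟨-1, by rw [h0, h1]; simp⟩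
      rw [this, add_zero]
    · rw [AddCircle.coe_add, AddCircle.coe_period, add_zero]
  obtain ⟨z, hz, hyz⟩ := per.exists_mem_Ico (by norm_num) y (-1)
  simp only [Prod.mk.injEq] at hyz
  rw [hyz.1, hyz.2]
  by_cases h0 : 0 ≤ z
  · have hz' : z ∈ Icc (0:ℝ) 1 := ⟨h0, by linarith [hz.2]⟩
    have e3 : f σ z = σ ⟨z, hz'⟩ := f_coe σ ⟨z, hz'⟩
    have e4 := D_pos σ ⟨z, hz'⟩
    rw [F_eq σ hd hz', e3, ← e4]
  · have hz' : -z ∈ Icc (0:ℝ) 1 := ⟨by linarith, by linarith [hz.1]⟩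
    have e1 : F σ z = 2 * f σ 0 - f σ (-z) := by
      have := F_neg σ (-z)
      rw [neg_neg] at this
      rw [this, F_eq σ hd hz']
    have e2 : (z : N) = -(((⟨-z, hz'⟩ : M) : ℝ) : N) := by
      simp
    rw [e1, e2, D_neg σ hσ, AddCircle.coe_sub]
    have : ((2 * f σ 0 : ℝ) : N) = 0 := by
      rw [AddCircle.coe_eq_zero_iff, hf0]
      rcases hσ with ⟨h0, h1⟩ | ⟨h0, h1⟩
      · exact ⟨0, by rw [h0]; simp⟩
      · exact ⟨1, by rw [h0]; simp⟩
    rw [this, zero_sub, ← f_coe]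

include hσ hd in
lemma D_contMDiff : ContMDiff (𝓡∂ 1) (𝓡∂ 1) 1 (D σ) := by
  intro x0
  obtain ⟨s, hs, hsx⟩ := exists_section 1 x0
  have h1 : D σ = fun x => ((F σ (s x) : ℝ) : N) := by
    funext x
    rw [F_lift σ hσ hd, hsx]
  rw [h1]
  have hF : ContMDiff 𝓘(ℝ, ℝ) 𝓘(ℝ, ℝ) 1 (F σ) := (F_contDiff σ hd).contMDiff
  exact ((contMDiff_coe 1).comp hF).contMDiffAt.comp x0 hs

end lift

/-- the interval and the circle are not homeomorphic -/
lemma no_homeo (h : N → M) (hc : Continuous h) (hi : Function.Injective h) : False := by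
  set H : ℝ → ℝ := fun y => (h (y : N) : ℝ) with hH
  have Hc : Continuous H := continuous_subtype_val.comp (hc.comp (AddCircle.continuous_mk' _))
  have hinj : ∀ a b : ℝ, H a = H b → (a : N) = b := fun a b hab => hi (Subtype.ext hab)
  have h02 : H 0 = H 2 := by
    simp only [hH]
    rw [show ((2:ℝ) : N) = 0 from AddCircle.coe_period 2]
    simp
  have hne : H 0 ≠ H 1 := fun hh => zero_ne_one (hinj _ _ hh)
  have main : ∀ c ∈ Icc (0:ℝ) 1, ∀ d ∈ Icc (1:ℝ) 2, H c = (H 0 + H 1) / 2 →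
      H d = (H 0 + H 1) / 2 → False := by
    intro c hc' d hd' h1 h2
    have hcd := hinj d c (h2.trans h1.symm)
    have e : ((d - c : ℝ) : N) = 0 := by rw [AddCircle.coe_sub, hcd, sub_self]
    rw [AddCircle.coe_eq_zero_iff] at e
    obtain ⟨n, hn⟩ := e
    have hn' : (n : ℝ) * 2 = d - c := by simpa using hn
    have hc0 : c ≠ 0 := by
      rintro rfl
      apply hne; linarith
    have hc1 : c ≠ 1 := by
      rintro rfl
      apply hne; linarith
    have hd1 : d ≠ 1 := by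
      rintro rfl
      apply hne; linarith
    have hd2 : d ≠ 2 := by
      rintro rfl
      apply hne; linarith
    have k1 : 0 < c := lt_of_le_of_ne hc'.1 hc0.symm
    have k2 : c < 1 := lt_of_le_of_ne hc'.2 hc1
    have k3 : 1 < d := lt_of_le_of_ne hd'.1 hd1.symm
    have k4 : d < 2 := lt_of_le_of_ne hd'.2 hd2
    have k5 : (0:ℝ) < n := by linarith
    have k6 : (n:ℝ) < 1 := by linarith
    have k7 : (0:ℤ) < n := by exact_mod_cast k5
    have k8 : n < (1:ℤ) := by exact_mod_cast k6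
    omega
  have hcon1 : ContinuousOn H (uIcc 0 1) := Hc.continuousOn
  have hcon2 : ContinuousOn H (uIcc 1 2) := Hc.continuousOn
  have m1 : (H 0 + H 1) / 2 ∈ uIcc (H 0) (H 1) := by
    rw [mem_uIcc]
    rcases le_total (H 0) (H 1) with h | h
    · left; constructor <;> linarith
    · right; constructor <;> linarith
  have m2 : (H 0 + H 1) / 2 ∈ uIcc (H 1) (H 2) := by
    rw [← h02, uIcc_comm]; exact m1
  obtain ⟨c, hc1, hc2⟩ := intermediate_value_uIcc hcon1 m1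
  obtain ⟨d, hd1, hd2⟩ := intermediate_value_uIcc hcon2 m2
  rw [uIcc_of_le (by norm_num)] at hc1 hd1
  exact main c hc1 d hd1 hc2 hd2

end Pool.Agent.H89R3.Circ
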