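import Mathlib
import Pool.Agent.H89R3.BF

/-!
# Every involution of the Grassmann algebra is conjugate to a diagonal one
-/

set_option autoImplicit false

open ExteriorAlgebra

noncomputable section

namespace Pool.Agent.H89R3.Gr

variable {F : Type*} [Field F] (h2 : (2:F) ≠ 0)

include h2 in
lemma even_map {φ : E F ≃ₐ[F] E F} {x : E F} (hx : tau x = x) : tau (φ x) = φ x := by
  apply even_of_central h2
  intro y
  have h1 := even_mul h2 hx (φ.symm y)
  have h3 := congrArg φ h1
  simpa using h3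

include h2 in
/-- Step 0: conjugate an involution to one commuting with the parity -/
theorem step0 {φ : E F ≃ₐ[F] E F} (hφ : φ * φ = 1) :
    ∃ k : E F ≃ₐ[F] E F, (k⁻¹ * φ * k) * tau = tau * (k⁻¹ * φ * k) := by
  set τ : E F ≃ₐ[F] E F := tau with hτ
  have hττ : τ * τ = 1 := tau_sq
  have hφ' : φ⁻¹ = φ := inv_eq_of_mul_eq_one_left hφ
  have hτ' : τ⁻¹ = τ := inv_eq_of_mul_eq_one_left hττ
  set h : E F ≃ₐ[F] E F := φ * τ * φ * τ with hh
  have hha : ∀ x, h x = φ (τ (φ (τ x))) := fun x => rfl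
  have hφφ : ∀ x, φ (φ x) = x := fun x => by
    have := congrArg (fun l : E F ≃ₐ[F] E F => l x) hφ
    simpa using this
  have heven : ∀ x, τ x = x → h x = x := by
    intro x hx
    rw [hha, hx]
    have h1 : τ (φ x) = φ x := even_map h2 hx
    rw [h1, hφφ]
  have hodd : ∀ x, τ x = -x → h (h x - x) = h x - x := by
    intro x hx
    apply heven
    have h1 : h x - x = - φ (φ x + τ (φ x)) := by
      rw [hha, hx, map_neg, map_neg, map_neg, map_add, hφφ]; abel
    rw [h1, map_neg]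
    congr 1
    apply even_map h2
    change τ (φ x + τ (φ x)) = _
    rw [map_add]
    have : τ (τ (φ x)) = φ x := tau_tau _
    rw [this, add_comm]
  have hun : Un h := by
    intro x
    refine ⟨2, ?_⟩
    have h1 : ((lin h - 1 : Module.End F (E F)) ^ 2) x = h (h x - x) - (h x - x) := by
      rw [pow_two, Module.End.mul_apply]; simp
    rw [h1]
    apply cancel2 h2
    rw [smul_zero, smul_sub, ← map_smul]
    have h3 : (2:F) • (h x - x) = (h (x + τ x) - (x + τ x)) + (h (x - τ x) - (x - τ x)) := by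
      rw [two_smul, map_add, map_sub]; abel
    have h4 : h (x + τ x) = x + τ x := by
      apply heven
      rw [map_add]
      have : τ (τ x) = x := tau_tau _
      rw [this, add_comm]
    have h5 : h (h (x - τ x) - (x - τ x)) = h (x - τ x) - (x - τ x) := by
      apply hodd
      rw [map_sub]
      have : τ (τ x) = x := tau_tau _
      rw [this]; abel
    rw [h3, h4, sub_self, zero_add, h5, sub_self]
  obtain ⟨r, hr, hrun, hrc, -⟩ := exists_root h2 hun
  have e1 : τ * h * τ = h⁻¹ := by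
    rw [hh, mul_inv_rev, mul_inv_rev, mul_inv_rev, hφ', hτ']
    calc τ * (φ * τ * φ * τ) * τ = τ * φ * τ * φ * (τ * τ) := by group
      _ = τ * (φ * (τ * φ)) := by rw [hττ]; group
  have e2 : φ * h * φ = h⁻¹ := by
    rw [hh, mul_inv_rev, mul_inv_rev, mul_inv_rev, hφ', hτ']
    calc φ * (φ * τ * φ * τ) * φ = (φ * φ) * τ * φ * τ * φ := by group
      _ = τ * (φ * (τ * φ)) := by rw [hφ]; group
  have f1 : τ * r * τ = r⁻¹ := inv_root h2 hττ e1 hr hrun hrc
  have f2 : φ * r * φ = r⁻¹ := inv_root h2 hφ e2 hr hrun hrc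
  have f1' : τ * r⁻¹ * τ = r := by
    have := congrArg (fun x => x⁻¹) f1
    simp only [mul_inv_rev, inv_inv, hτ'] at this
    rw [← mul_assoc] at this
    exact this
  have f2' : φ * r⁻¹ * φ = r := by
    have := congrArg (fun x => x⁻¹) f2
    simp only [mul_inv_rev, inv_inv, hφ'] at this
    rw [← mul_assoc] at this
    exact this
  set m : E F ≃ₐ[F] E F := r⁻¹ * τ with hm
  have hmm : m * m = 1 := by
    calc m * m = r⁻¹ * (τ * r⁻¹ * τ) := by rw [hm]; group
      _ = 1 := by rw [f1']; group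
  have hrh : r * h = r⁻¹ := by
    have : r * (r * h) = 1 := by rw [← mul_assoc]; exact hr
    exact eq_inv_of_mul_eq_one_right this
  have hφmφ : φ * m * φ = m := by
    have k1 : φ * τ * φ = h * τ := by
      rw [hh, mul_assoc (φ * τ * φ), hττ, mul_one]
    calc φ * m * φ = φ * r⁻¹ * 1 * τ * φ := by rw [hm]; group
      _ = (φ * r⁻¹ * φ) * (φ * τ * φ) := by rw [← hφ]; group
      _ = r * (h * τ) := by rw [f2', k1]
      _ = (r * h) * τ := by group
      _ = m := by rw [hrh]
  have hφm : φ * m = m * φ := by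
    calc φ * m = φ * m * (φ * φ) := by rw [hφ, mul_one]
      _ = (φ * m * φ) * φ := by group
      _ = m * φ := by rw [hφmφ]
  have hτm : τ * m = r := by
    rw [hm, ← mul_assoc]; 
    exact f1'
  obtain ⟨k, hk, hkun, hkc, -⟩ := exists_root h2 (h := τ * m) (by rw [hτm]; exact hrun)
  have hconj : m * k = k * τ := conj_root h2 hmm hττ hk hkun hkc
  refine ⟨k, ?_⟩
  have hτk : τ = k⁻¹ * m * k := by
    rw [mul_assoc, hconj]; group
  calc k⁻¹ * φ * k * τ = k⁻¹ * φ * k * (k⁻¹ * m * k) := by rw [← hτk]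
    _ = k⁻¹ * (φ * m) * k := by group
    _ = k⁻¹ * (m * φ) * k := by rw [hφm]
    _ = (k⁻¹ * m * k) * (k⁻¹ * φ * k) := by group
    _ = τ * (k⁻¹ * φ * k) := by rw [← hτk]

include h2 in
lemma Fil_one_lin {x : E F} (hx : x ∈ (Fil 1 : Submodule F (E F))) :
    ∃ m : ℕ →₀ F, x - ι F m ∈ (Fil 2 : Submodule F (E F)) := by
  rw [Fil, pow_one] at hx
  induction hx using Submodule.mul_induction_on' with
  | mem_mul_mem a ha b hb =>
    obtain ⟨m, rfl⟩ := ha
    obtain ⟨r, hr⟩ := exists_aug b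
    refine ⟨r • m, ?_⟩
    have : ι F m * b - ι F (r • m) = ι F m * (b - algebraMap F (E F) r) := by
      rw [mul_sub, map_smul, ← Algebra.commutes, ← Algebra.smul_def]
    rw [this]
    exact mul_mem_Fil h2 (VV_le ⟨m, rfl⟩) hr (by norm_num)
  | add a _ b _ ha hb =>
    obtain ⟨m, hm⟩ := ha
    obtain ⟨m', hm'⟩ := hb
    refine ⟨m + m', ?_⟩
    have : a + b - ι F (m + m') = (a - ι F m) + (b - ι F m') := by rw [map_add]; abel
    rw [this]
    exact Submodule.add_mem _ hm hm'

lemma ι_Fil {m : ℕ →₀ F} (h : ι F m ∈ (Fil 2 : Submodule F (E F))) : m = 0 := by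
  have h1 := Fil_decompose (by norm_num : 1 < 2) h
  have h3 : ι F m ∈ ⋀[F]^1 (ℕ →₀ F) := by
    change ι F m ∈ (LinearMap.range (ι F)) ^ 1
    rw [pow_one]; exact ⟨m, rfl⟩
  rw [DirectSum.decompose_of_mem_same (fun i : ℕ ↦ ⋀[F]^i (ℕ →₀ F)) h3] at h1
  exact (ι_eq_zero_iff m).mp h1

/-- the automorphism induced by a linear automorphism -/
def mapE {L L' : Type*} [AddCommGroup L] [Module F L] [AddCommGroup L'] [Module F L'] (A : L ≃ₗ[F] L') :
    ExteriorAlgebra F L ≃ₐ[F] ExteriorAlgebra F L' :=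
  AlgEquiv.ofAlgHom (ExteriorAlgebra.map A.toLinearMap) (ExteriorAlgebra.map A.symm.toLinearMap)
    (by
      apply ExteriorAlgebra.hom_ext
      ext m
      simp) (by
      apply ExteriorAlgebra.hom_ext
      ext m
      simp)

@[simp] lemma mapE_ι {L L' : Type*} [AddCommGroup L] [Module F L] [AddCommGroup L'] [Module F L']
    (A : L ≃ₗ[F] L') (m : L) : mapE A (ι F m) = ι F (A m) := by
  change ExteriorAlgebra.map A.toLinearMap (ι F m) = _
  rw [map_apply_ι]; rfl

include h2 in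
/-- a linear involution of a space with countable basis is diagonalisable -/
lemma diag {T : (ℕ →₀ F) →ₗ[F] (ℕ →₀ F)} (hT : ∀ m, T (T m) = m) :
    ∃ (b : Module.Basis ℕ F (ℕ →₀ F)) (ε : ℕ → F), (∀ i, ε i * ε i = 1) ∧ ∀ i, T (b i) = ε i • b i := by
  classical
  set P : Submodule F (ℕ →₀ F) := LinearMap.ker (T - LinearMap.id) with hP
  set Q : Submodule F (ℕ →₀ F) := LinearMap.ker (T + LinearMap.id) with hQ
  have hPm : ∀ m, m ∈ P ↔ T m = m := fun m => by simp [hP, sub_eq_zero]
  have hQm : ∀ m, m ∈ Q ↔ T m = -m := fun m => by simp [hQ, add_eq_zero_iff_eq_neg]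
  have hPQ : IsCompl P Q := by
    constructor
    · rw [Submodule.disjoint_def]
      intro m h1 h3
      rw [hPm] at h1
      rw [hQm] at h3
      apply cancel2 h2
      rw [two_smul, smul_zero]
      nth_rewrite 1 [← h1]
      rw [h3]; simp
    · rw [codisjoint_iff, eq_top_iff]
      intro m _
      have : m = (2:F)⁻¹ • (m + T m) + (2:F)⁻¹ • (m - T m) := by
        rw [← smul_add]
        have : m + T m + (m - T m) = (2:F) • m := by rw [two_smul]; abel
        rw [this, smul_smul, inv_mul_cancel₀ h2, one_smul]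
      rw [this]
      apply Submodule.add_mem_sup
      · apply Submodule.smul_mem
        rw [hPm, map_add, hT]; abel
      · apply Submodule.smul_mem
        rw [hQm, map_sub, hT]; abel
  let b1 := Module.Basis.ofVectorSpace F P
  let b2 := Module.Basis.ofVectorSpace F Q
  let b3 := (b1.prod b2).map (Submodule.prodEquivOfIsCompl P Q hPQ)
  let b0 : Module.Basis ℕ F (ℕ →₀ F) := Finsupp.basisSingleOne
  let eq := b3.indexEquiv b0
  let b := b3.reindex eq
  refine ⟨b, fun i => Sum.elim (fun _ => 1) (fun _ => -1) (eq.symm i), ?_, ?_⟩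
  · intro i
    rcases hh : eq.symm i with j | j <;> simp [hh]
  · intro i
    have hb : b i = b3 (eq.symm i) := b3.reindex_apply eq i
    rw [hb]
    rcases hh : eq.symm i with j | j
    · have h1 : b3 (Sum.inl j) = (b1 j : ℕ →₀ F) := by
        simp [b3]
      have h3 : T (b1 j : ℕ →₀ F) = b1 j := (hPm _).mp (b1 j).2
      rw [h1, h3]; simp [hh]
    · have h1 : b3 (Sum.inr j) = (b2 j : ℕ →₀ F) := by
        simp [b3]
      have h3 : T (b2 j : ℕ →₀ F) = -b2 j := (hQm _).mp (b2 j).2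
      rw [h1, h3]; simp [hh]

include h2 in
/-- Every involution of the Grassmann algebra has a system of eigenvectors which is the image of
the standard generators under an automorphism. -/
theorem involution {φ : E F ≃ₐ[F] E F} (hφ : φ * φ = 1) :
    ∃ (Ψ : E F ≃ₐ[F] E F) (ε : ℕ → F), (∀ i, ε i * ε i = 1) ∧ ∀ i, φ (Ψ (e i)) = ε i • Ψ (e i) := by
  obtain ⟨k, hk⟩ := step0 h2 hφ
  set φ1 : E F ≃ₐ[F] E F := k⁻¹ * φ * k with hφ1
  have hφ1sq : φ1 * φ1 = 1 := by
    calc φ1 * φ1 = k⁻¹ * (φ * φ) * k := by rw [hφ1]; group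
      _ = 1 := by rw [hφ]; group
  have hφ1φ1 : ∀ x, φ1 (φ1 x) = x := fun x => by
    have := congrArg (fun l : E F ≃ₐ[F] E F => l x) hφ1sq
    simpa using this
  have hlin : ∀ i, ∃ m : ℕ →₀ F, φ1 (e i) - ι F m ∈ (Fil 2 : Submodule F (E F)) := fun i =>
    Fil_one_lin h2 (odd_mem_Fil h2 (tau_odd_of_comm hk i))
  choose m hm using hlin
  set T : (ℕ →₀ F) →ₗ[F] (ℕ →₀ F) := Finsupp.linearCombination F m with hT
  have hTe : ∀ i, T (Finsupp.single i 1) = m i := fun i => by simp [hT]
  have hTφ : ∀ x : ℕ →₀ F, φ1 (ι F x) - ι F (T x) ∈ (Fil 2 : Submodule F (E F)) := by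
    intro x
    induction x using Finsupp.induction_linear with
    | zero => simp
    | add a b ha hb =>
      have : φ1 (ι F (a + b)) - ι F (T (a + b)) = (φ1 (ι F a) - ι F (T a)) + (φ1 (ι F b) - ι F (T b)) := by
        simp only [map_add]; abel
      rw [this]
      exact Submodule.add_mem _ ha hb
    | single i c =>
      have h1 : (Finsupp.single i c : ℕ →₀ F) = c • Finsupp.single i 1 := by simp
      rw [h1, map_smul, map_smul, map_smul, map_smul, ← smul_sub, hTe]
      exact Submodule.smul_mem _ _ (hm i)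
  have hTT : ∀ x, T (T x) = x := by
    intro x
    have h1 : ι F (T (T x) - x) ∈ (Fil 2 : Submodule F (E F)) := by
      have h3 : ι F (T (T x) - x) = -(φ1 (ι F (T x)) - ι F (T (T x))) - φ1 (φ1 (ι F x) - ι F (T x)) := by
        rw [map_sub, map_sub, hφ1φ1]; abel
      rw [h3]
      exact Submodule.sub_mem _ (Submodule.neg_mem _ (hTφ _)) (comm_Fil h2 hk 2 (hTφ x))
    exact sub_eq_zero.mp (ι_Fil h1)
  obtain ⟨b, ε, hε, hb⟩ := diag h2 hTT
  set A : (ℕ →₀ F) ≃ₗ[F] (ℕ →₀ F) := Finsupp.basisSingleOne.equiv b (Equiv.refl ℕ) with hA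
  have hAe : ∀ i, A (Finsupp.single i 1) = b i := by
    intro i
    have := (Finsupp.basisSingleOne (R := F) (ι := ℕ)).equiv_apply i b (Equiv.refl ℕ)
    simpa using this
  set α : E F ≃ₐ[F] E F := mapE A with hα
  have hατ : α * tau = tau * α := by
    ext x
    have : (α : E F →ₐ[F] E F).comp (tau : E F ≃ₐ[F] E F) = ((tau : E F ≃ₐ[F] E F) : E F →ₐ[F] E F).comp (α : E F →ₐ[F] E F) := by
      apply ExteriorAlgebra.hom_ext
      apply LinearMap.ext
      intro m
      simp [hα]
    exact congrArg (fun l : E F →ₐ[F] E F => l x) this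
  have hcα : Commute α tau := hατ
  have hαinv : α⁻¹ * tau = tau * α⁻¹ := hcα.inv_left
  have hk' : Commute φ1 tau := hk
  have hgood : Good ε (α⁻¹ * φ1 * α) := by
    refine ⟨?_, ?_, ?_⟩
    · calc α⁻¹ * φ1 * α * (α⁻¹ * φ1 * α) = α⁻¹ * (φ1 * φ1) * α := by group
        _ = 1 := by rw [hφ1sq]; group
    · exact (hcα.inv_left.mul_left hk').mul_left hcα
    · intro i
      have h1 : (α⁻¹ * φ1 * α) (e i) = α⁻¹ (φ1 (ι F (b i))) := by
        have : α (e i) = ι F (b i) := by rw [hα, e, mapE_ι, hAe]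
        rw [← this]; rfl
      have h3 : ε i • (e i : E F) = α⁻¹ (ι F (T (b i))) := by
        have : α (e i) = ι F (b i) := by rw [hα, e, mapE_ι, hAe]
        rw [hb, map_smul, map_smul, ← this, inv_apply']
      rw [h1, h3, ← map_sub]
      exact comm_Fil h2 hαinv 2 (hTφ _)
  obtain ⟨Ψ, hΨ⟩ := linearize h2 hε hgood
  refine ⟨k * α * Ψ, ε, hε, ?_⟩
  intro i
  have h1 := congrArg (fun y => k (α y)) (hΨ i)
  have h3 : (k * α * Ψ) (e i) = k (α (Ψ (e i))) := rfl
  have h4 : k (α ((α⁻¹ * φ1 * α) (Ψ (e i)))) = φ (k (α (Ψ (e i)))) := by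
    have : k * α * (α⁻¹ * φ1 * α) = φ * (k * α) := by rw [hφ1]; group
    exact congrArg (fun l : E F ≃ₐ[F] E F => l (Ψ (e i))) this
  simp only [h4, map_smul] at h1
  rw [h3, h1]

end Pool.Agent.H89R3.Gr
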